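import Pool.Agent.Helper79_WRA.Defs

/-!
WRA: basic lemmas on residues, membership and values.
-/

open scoped BigOperators

noncomputable section

namespace Pool.Agent.Helper79_WRA

open Pool.Agent.Helper51_AWC

section red

variable {M : Ideal (integralClosure ℤ ℂ)}

theorem red_of {z : ℂ} (h : IsIntegral ℤ z) :
    red M z = Ideal.Quotient.mk M ⟨z, h⟩ := by
  unfold red; rw [dif_pos h]

theorem red_eq_iff {a b : ℂ} (ha : IsIntegral ℤ a) (hb : IsIntegral ℤ b) :
    red M a = red M b ↔ Cong M a b := by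
  rw [red_of ha, red_of hb, Ideal.Quotient.eq]
  constructor
  · intro h
    exact ⟨_, h, rfl⟩
  · rintro ⟨m, hm, h⟩
    have : (⟨a, ha⟩ - ⟨b, hb⟩ : integralClosure ℤ ℂ) = m := by
      apply Subtype.ext
      rw [h]; rfl
    rw [this]; exact hm

theorem red_zero : red M 0 = 0 := by
  rw [red_of isIntegral_zero]
  exact map_zero _

theorem red_one : red M 1 = 1 := by
  rw [red_of isIntegral_one]
  exact map_one _

theorem red_add {a b : ℂ} (ha : IsIntegral ℤ a) (hb : IsIntegral ℤ b) :
    red M (a + b) = red M a + red M b := by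
  rw [red_of ha, red_of hb, red_of (ha.add hb), ← map_add]
  rfl

theorem red_mul {a b : ℂ} (ha : IsIntegral ℤ a) (hb : IsIntegral ℤ b) :
    red M (a * b) = red M a * red M b := by
  rw [red_of ha, red_of hb, red_of (ha.mul hb), ← map_mul]
  rfl

theorem red_pow {a : ℂ} (ha : IsIntegral ℤ a) (n : ℕ) : red M (a ^ n) = red M a ^ n := by
  induction n with
  | zero => rw [pow_zero, pow_zero, red_one]
  | succ n ih => rw [pow_succ, pow_succ, red_mul (ha.pow n) ha, ih]

theorem red_sum {ι : Type*} (s : Finset ι) (f : ι → ℂ) (h : ∀ i ∈ s, IsIntegral ℤ (f i)) :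
    red M (∑ i ∈ s, f i) = ∑ i ∈ s, red M (f i) := by
  classical
  induction s using Finset.induction_on with
  | empty => rw [Finset.sum_empty, Finset.sum_empty, red_zero]
  | insert a s ha ih =>
    rw [Finset.sum_insert ha, Finset.sum_insert ha,
      red_add (h a (Finset.mem_insert_self _ _))
        (IsIntegral.sum _ fun i hi => h i (Finset.mem_insert_of_mem hi)),
      ih fun i hi => h i (Finset.mem_insert_of_mem hi)]

theorem red_prod {ι : Type*} (s : Finset ι) (f : ι → ℂ) (h : ∀ i ∈ s, IsIntegral ℤ (f i)) :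
    red M (∏ i ∈ s, f i) = ∏ i ∈ s, red M (f i) := by
  classical
  induction s using Finset.induction_on with
  | empty => rw [Finset.prod_empty, Finset.prod_empty, red_one]
  | insert a s ha ih =>
    rw [Finset.prod_insert ha, Finset.prod_insert ha,
      red_mul (h a (Finset.mem_insert_self _ _))
        (IsIntegral.prod _ fun i hi => h i (Finset.mem_insert_of_mem hi)),
      ih fun i hi => h i (Finset.mem_insert_of_mem hi)]

end red

theorem val_eq {Λ : Type} [Group Λ] [Fintype Λ] (Φ η : Λ → ℂ) :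
    val Φ η = (∑ t, Φ t * η t) / η 1 := by
  unfold val
  rw [finsum_eq_sum_of_fintype]

theorem mem_psubIn {ℓ : ℕ} {Γ : Type} [Group Γ] [Finite Γ] {W D : Subgroup Γ} :
    D ∈ psubIn ℓ W ↔ D ≤ W ∧ IsPGroup ℓ D := by
  simp [psubIn]

section boxes

variable {G Δ K : Type} [Group G] [Group K] [MulAction K Δ]

omit [Group K] [MulAction K Δ] in
theorem mem_boxes {ℓ : ℕ} [Finite G] [Finite Δ] {R : Δ → Subgroup G} :
    R ∈ boxes ℓ G Δ ↔ ∀ j, R j ∈ psub ℓ G := by
  simp [boxes]

theorem mem_colStab {v : Finset (Δ → Subgroup G)} {j : Δ} {g : G} :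
    g ∈ colStab v j ↔ ∀ R ∈ v, conjS g (R j) = R j := by
  unfold colStab
  simp only [Subgroup.mem_iInf, mem_normalizer_iff_conjS]

open Classical in
theorem colStab_eq (v : Finset (Δ → Subgroup G)) (j : Δ) :
    colStab v j = stab (v.image (fun R => R j)) := by
  ext g
  rw [mem_colStab, mem_stab]
  constructor
  · intro h D hD
    obtain ⟨R, hR, rfl⟩ := Finset.mem_image.1 hD
    exact h R hR
  · intro h R hR
    exact h _ (Finset.mem_image_of_mem _ hR)

theorem mem_boxStab {v : Finset (Δ → Subgroup G)} {t : Wreath G Δ K} :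
    t ∈ boxStab K v ↔ ∀ R ∈ v, ∀ j, conjS (t.f j) (R (t.s⁻¹ • j)) = R j := Iff.rfl

theorem mem_stX {v : Finset (Δ → Subgroup G)} {α : Δ → G → ℂ} {t : Wreath G Δ K} :
    t ∈ stX K v α ↔ (∀ R ∈ v, ∀ j, conjS (t.f j) (R (t.s⁻¹ • j)) = R j) ∧
      ∀ j y, α j (t.f j * y * (t.f j)⁻¹) = α (t.s⁻¹ • j) y := Iff.rfl

/-- an element `h` of the top group lies in the image of the stabiliser of `(v, α)` iff for every
`j` the columns at `h⁻¹ j` and `j` are conjugate under `G` -/
theorem mem_topSt {v : Finset (Δ → Subgroup G)} {α : Δ → G → ℂ} {h : K} :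
    h ∈ topSt K v α ↔ ∀ j, ∃ g : G, (∀ R ∈ v, conjS g (R (h⁻¹ • j)) = R j) ∧
      ∀ y, α j (g * y * g⁻¹) = α (h⁻¹ • j) y := by
  constructor
  · rintro ⟨t, ht, rfl⟩ j
    exact ⟨t.f j, fun R hR => ht.1 R hR j, fun y => ht.2 j y⟩
  · intro H
    choose g hg using H
    exact ⟨⟨g, h⟩, ⟨fun R hR j => (hg j).1 R hR, fun j y => (hg j).2 y⟩, rfl⟩

theorem stX_le_boxStab {v : Finset (Δ → Subgroup G)} {α : Δ → G → ℂ} :
    stX K v α ≤ boxStab K v := fun _ ht => ht.1

end boxes

theorem IrrS_one {G : Type} [Group G] {H : Subgroup G} {a : G → ℂ} (ha : a ∈ IrrS H) :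
    ∃ n : ℕ, 0 < n ∧ a 1 = n := by
  obtain ⟨d, hd, h⟩ := irr_one ha.2
  exact ⟨d, hd, by simpa using h⟩

theorem IrrS_one_ne {G : Type} [Group G] {H : Subgroup G} {a : G → ℂ} (ha : a ∈ IrrS H) :
    a 1 ≠ 0 := by
  obtain ⟨n, hn, h⟩ := IrrS_one ha
  rw [h]; exact_mod_cast hn.ne'

theorem IrrS_integral {G : Type} [Group G] [Finite G] {H : Subgroup G} {a : G → ℂ}
    (ha : a ∈ IrrS H) (g : G) : IsIntegral ℤ (a g) := by
  by_cases hg : g ∈ H
  · exact irr_integral ha.2 ⟨g, hg⟩
  · rw [ha.1 g hg]; exact isIntegral_zero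

theorem IrrS_ext {G : Type} [Group G] {H : Subgroup G} {a b : G → ℂ} (ha : a ∈ IrrS H)
    (hb : b ∈ IrrS H) (h : ∀ x : H, a x = b x) : a = b := by
  funext g
  by_cases hg : g ∈ H
  · exact h ⟨g, hg⟩
  · rw [ha.1 g hg, hb.1 g hg]

/-- the characters of `H` and their extensions by zero -/
theorem exists_IrrS {G : Type} [Group G] (H : Subgroup G) {ϑ : H → ℂ} (hϑ : ϑ ∈ Irr H) :
    ∃ a ∈ IrrS H, ∀ x : H, a x = ϑ x := by
  classical
  refine ⟨fun g => if h : g ∈ H then ϑ ⟨g, h⟩ else 0, ⟨?_, ?_⟩, ?_⟩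
  · intro g hg; simp [hg]
  · have : (fun h : H => (fun g => if h : g ∈ H then ϑ ⟨g, h⟩ else 0) (h : G)) = ϑ := by
      funext x; simp
    rw [this]; exact hϑ
  · intro x; simp

theorem IrrS_finite {G : Type} [Group G] [Finite G] (H : Subgroup G) : (IrrS H).Finite := by
  classical
  have := Fintype.ofFinite H
  apply Set.Finite.of_finite_image (f := fun a => fun x : H => a x) ?_ ?_
  · apply (irr_finite' (G := H)).subset
    rintro _ ⟨a, ha, rfl⟩
    exact ha.2
  · intro a ha b hb h
    exact IrrS_ext ha hb (fun x => congrFun h x)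

theorem mem_IrrS_top {G : Type} [Group G] {a : G → ℂ} : a ∈ IrrS (⊤ : Subgroup G) ↔ a ∈ Irr G := by
  constructor
  · intro h
    exact irr_comp_equiv (Subgroup.topEquiv.symm) h.2
  · intro h
    refine ⟨fun g hg => absurd (Subgroup.mem_top g) hg, ?_⟩
    exact irr_comp_equiv (Subgroup.topEquiv : (⊤ : Subgroup G) ≃* G) h

/-- the label of a character extended by zero is the central character of the induced block -/
theorem omega_IrrS {G : Type} [Group G] [Finite G] {H : Subgroup G} {a : G → ℂ}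
    (ha : a ∈ IrrS H) (g : G) :
    omega (MonoidHom.id G) a g = omega H.subtype (fun h : H => a h) g := by
  classical
  have := Fintype.ofFinite G
  have := Fintype.ofFinite H
  rw [omega_eq, omega_eq]
  congr 1
  have h1 : ∀ x : G, (if IsConj g (MonoidHom.id G x) then a x else 0) =
      (if x ∈ H then (if IsConj g x then a x else 0) else 0) := by
    intro x
    by_cases hx : x ∈ H
    · rw [if_pos hx]; rfl
    · rw [if_neg hx, ha.1 x hx]; simp
  simp_rw [h1]
  rw [← Finset.sum_filter]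
  symm
  apply Finset.sum_bij (fun (x : H) _ => (x : G))
  · intro x _; simp
  · intro x _ y _ h; exact Subtype.ext h
  · intro x hx
    exact ⟨⟨x, (Finset.mem_filter.1 hx).2⟩, Finset.mem_univ _, rfl⟩
  · intro x _; rfl

theorem omega_IrrS_integral {G : Type} [Group G] [Finite G] {H : Subgroup G} {a : G → ℂ}
    (ha : a ∈ IrrS H) (g : G) : IsIntegral ℤ (omega (MonoidHom.id G) a g) := by
  rw [omega_IrrS ha]
  exact omega_integral _ ha.2 g

section charsOf

variable {G Δ : Type} [Group G]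

theorem isChars_finite [Finite G] [Finite Δ] (v : Finset (Δ → Subgroup G)) :
    {α : Δ → G → ℂ | IsChars v α}.Finite := by
  have : {α : Δ → G → ℂ | IsChars v α} = Set.pi Set.univ (fun j => IrrS (colStab v j)) := by
    ext α
    simp [IsChars, Set.mem_pi]
  rw [this]
  exact Set.Finite.pi (fun j => IrrS_finite _)

theorem mem_charsOf [Finite G] [Finite Δ] {v : Finset (Δ → Subgroup G)} {α : Δ → G → ℂ} :
    α ∈ charsOf v ↔ IsChars v α := by
  unfold charsOf
  rw [dif_pos (isChars_finite v), Set.Finite.mem_toFinset]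
  rfl

end charsOf

end Pool.Agent.Helper79_WRA
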