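import Pool.Agent.Helper79_WRA.Defs

/-!
WRA: the statements of the modules.
-/

open scoped BigOperators

noncomputable section

namespace Pool.Agent.Helper79_WRA

open Pool.Agent.Helper51_AWC

/-! ## Part 1: alternating sums over chains -/

/-- INTER: cancellation by an interior operator (dual of `sum_closure`). -/
def InterStmt : Prop :=
  ∀ (α : Type) [PartialOrder α] [DecidableEq α] (s : Finset α) (b : α) (c : α → α),
    (∀ x ∈ s, c x ∈ s) → (∀ x ∈ s, c x ≤ x) → (∀ x ∈ s, ∀ y ∈ s, x ≤ y → c x ≤ c y) →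
    (∀ x ∈ s, c (c x) = c x) → c b = b → (∀ x ∈ s, c x = b → x = b) → (∀ x ∈ s, b ≤ x) →
    ∀ f : Finset α → ℤ,
      (∀ d ∈ chainsOn s b, ∀ x ∈ d, c x ∉ d → f (insert (c x) d) = - f d) →
      ∑ d ∈ chainsOn s b, f d = ∑ d ∈ (chainsOn s b).filter (fun d => ∀ x ∈ d, c x = x), f d

/-- CONE: a conically contractible poset. -/
def ConeStmt : Prop :=
  ∀ (α : Type) [PartialOrder α] [DecidableEq α] (s : Finset α) (b o : α) (j : α → α),
    ¬ o ≤ b → (∀ x ∈ s, b ≤ x) → (∀ x ∈ s, j x ∈ s) → (∀ x ∈ s, x ≤ j x) →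
    (∀ x ∈ s, o ≤ j x) → (∀ x ∈ s, ∀ y ∈ s, x ≤ y → o ≤ y → j x ≤ y) →
    ∀ f : Finset α → ℤ,
      (∀ d ∈ chainsOn s b, ∀ x ∈ d, j x ∉ d → f (insert (j x) d) = - f d) →
      ∑ d ∈ chainsOn s b, f d = 0

open Classical in
/-- CHAINRED: reduction to the chains of `ℓ`-subgroups meeting `N` trivially. -/
def ChainRedStmt : Prop :=
  ∀ (ℓ : ℕ) [Fact ℓ.Prime] (Γ : Type) [Group Γ] [Finite Γ] (N : Subgroup Γ), N.Normal →
    opCore ℓ Γ = ⊥ → ∀ w : Subgroup Γ → ℤ,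
      ∑ d ∈ chainsOn (psub ℓ Γ) ⊥, (-1) ^ (d.card + 1) * w (stab d) =
        ∑ c ∈ (chainsOn (psub ℓ Γ) ⊥).filter (fun c => ∀ D ∈ c, D ⊓ N = ⊥),
          (-1) ^ (c.card + 1) * tsum ℓ N w c

/-- TZERO: if `C_N(c)` has a nontrivial normal `ℓ`-subgroup then the inner sum vanishes. -/
def TZeroStmt : Prop :=
  ∀ (ℓ : ℕ) [Fact ℓ.Prime] (Γ : Type) [Group Γ] [Finite Γ] (N : Subgroup Γ), N.Normal →
    ∀ (w : Subgroup Γ → ℤ) (c : Finset (Subgroup Γ)), opCore ℓ (cent N c) ≠ ⊥ →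
      tsum ℓ N w c = 0

open Classical in
/-- TCONJ: the inner sum is invariant under conjugation. -/
def TConjStmt : Prop :=
  ∀ (ℓ : ℕ) [Fact ℓ.Prime] (Γ : Type) [Group Γ] [Finite Γ] (N : Subgroup Γ), N.Normal →
    ∀ (w : Subgroup Γ → ℤ), (∀ g H, w (conjS g H) = w H) →
      ∀ (g : Γ) (c : Finset (Subgroup Γ)),
        tsum ℓ N w (c.image (conjS g)) = tsum ℓ N w c

/-! ## Part 2: the group theory of the wreath product -/

/-- OPCORE: the wreath product has no nontrivial normal `ℓ`-subgroup. -/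
def OpCoreStmt : Prop :=
  ∀ (ℓ : ℕ) [Fact ℓ.Prime] (G Ω L : Type) [Group G] [Finite G] [Finite Ω] [Group L] [Finite L]
    [MulAction L Ω] [FaithfulSMul L Ω], Nontrivial G → opCore ℓ G = ⊥ →
      opCore ℓ (Wreath G Ω L) = ⊥

/-- TWIST: a chain of `ℓ`-subgroups meeting the base group trivially is conjugate into the top
group, or its centraliser in the base group has a nontrivial normal `ℓ`-subgroup. -/
def TwistStmt : Prop :=
  ∀ (ℓ : ℕ) [Fact ℓ.Prime] (G Ω L : Type) [Group G] [Finite G] [Finite Ω] [Group L] [Finite L]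
    [MulAction L Ω] (c : Finset (Subgroup (Wreath G Ω L))),
    (∀ D ∈ c, IsPGroup ℓ D) → c.Nonempty → IsChain (· ≤ ·) (c : Set (Subgroup (Wreath G Ω L))) →
    (∀ D ∈ c, D ⊓ (Wreath.base : (Ω → G) →* Wreath G Ω L).range = ⊥) →
    opCore ℓ (cent (Wreath.base : (Ω → G) →* Wreath G Ω L).range c) ≠ ⊥ ∨
      ∃ g : Ω → G, ∀ D ∈ c,
        conjS (Wreath.base g) D ≤ (Wreath.top : L →* Wreath G Ω L).range

/-- LAMBDA: the stabiliser of a chain of `ℓ`-subgroups of the top group is again a wreath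
product. -/
def LambdaStmt : Prop :=
  ∀ (ℓ : ℕ) [Fact ℓ.Prime] (G Ω L : Type) [Group G] [Finite G] [Finite Ω] [Group L] [Finite L]
    [MulAction L Ω] (c : Finset (Subgroup (Wreath G Ω L))),
    (∀ D ∈ c, IsPGroup ℓ D) → c.Nonempty → IsChain (· ≤ ·) (c : Set (Subgroup (Wreath G Ω L))) →
    (∀ D ∈ c, D ≤ (Wreath.top : L →* Wreath G Ω L).range) →
    ∃ (Δ K : Type) (_ : Fintype Δ) (_ : Group K) (_ : Finite K) (_ : MulAction K Δ)
      (q : Ω → Δ) (κ : K →* L) (ι : Wreath G Δ K →* Wreath G Ω L),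
      Function.Surjective q ∧ Function.Injective κ ∧ Function.Injective ι ∧
      (∀ k i, q (κ k • i) = k • q i) ∧
      (∀ x, ι x = ⟨fun i => x.f (q i), κ x.s⟩) ∧
      (∀ j, ∃ n, Nat.card {i // q i = j} = ℓ ^ n) ∧
      ι.range = stab c ∧
      cent (Wreath.base : (Ω → G) →* Wreath G Ω L).range c =
        (ι.comp (Wreath.base : (Δ → G) →* Wreath G Δ K)).range

/-- the stabiliser in the wreath product of a set of subgroups of the base group -/
def stabB {G Δ : Type} (K : Type) [Group G] [Group K] [MulAction K Δ]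
    (v : Finset (Subgroup (Δ → G))) : Subgroup (Wreath G Δ K) :=
  ⨅ R ∈ v, Subgroup.normalizer
    ((R.map (Wreath.base : (Δ → G) →* Wreath G Δ K) : Subgroup (Wreath G Δ K)) : Set _)

/-- TRANS: transport of the inner sum to the smaller wreath product. -/
def TransStmt : Prop :=
  ∀ (ℓ : ℕ) [Fact ℓ.Prime] (Γ G Δ K : Type) [Group Γ] [Finite Γ] [Group G] [Finite G]
    [Finite Δ] [Group K] [Finite K] [MulAction K Δ] (N : Subgroup Γ) (w : Subgroup Γ → ℤ)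
    (c : Finset (Subgroup Γ)) (ι : Wreath G Δ K →* Γ), Function.Injective ι →
    ι.range = stab c →
    cent N c = (ι.comp (Wreath.base : (Δ → G) →* Wreath G Δ K)).range →
    tsum ℓ N w c = ∑ v ∈ chainsOn (psubIn ℓ (⊤ : Subgroup (Δ → G))) ⊥,
      (-1) ^ (v.card + 1) * w ((stabB K v).map ι)

/-- BOX: only the chains of boxes matter. -/
def BoxStmt : Prop :=
  ∀ (ℓ : ℕ) [Fact ℓ.Prime] (G Δ K : Type) [Group G] [Finite G] [Finite Δ] [Group K] [Finite K]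
    [MulAction K Δ], opCore ℓ G = ⊥ → ∀ w : Subgroup (Wreath G Δ K) → ℤ,
      ∑ v ∈ chainsOn (psubIn ℓ (⊤ : Subgroup (Δ → G))) ⊥, (-1) ^ (v.card + 1) * w (stabB K v) =
        ∑ v ∈ chainsOn (boxes ℓ G Δ) (fun _ => ⊥), (-1) ^ (v.card + 1) * w (boxStab K v)

/-! ## Part 3: Clifford theory -/

/-- the induced class function -/
def ind {Λ : Type} [Group Λ] (T : Subgroup Λ) (η : Λ → ℂ) : Λ → ℂ :=
  fun g => (∑ᶠ x : Λ, η (x * g * x⁻¹)) / (Nat.card T : ℂ)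

/-- CLIFF: the theorems of Clifford and Gallagher as a counting formula. The characters `ν a` of
the kernel of `π` have stabilisers `T a` and extensions `X a`. -/
def CliffStmt : Prop :=
  ∀ (Λ K A : Type) [Group Λ] [Finite Λ] [Group K] [Finite K] [Fintype A] (π : Λ →* K)
    (ν X : A → Λ → ℂ) (T : A → Subgroup Λ),
    (∀ a, ν a ∈ IrrS π.ker) → Function.Injective ν → (∀ η ∈ IrrS π.ker, ∃ a, ν a = η) →
    (∀ a t, t ∈ T a ↔ ∀ y, ν a (t * y * t⁻¹) = ν a y) →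
    (∀ a, X a ∈ IrrS (T a)) → (∀ a, ∀ y ∈ π.ker, X a y = ν a y) →
    ∀ S : Set (Λ → ℂ),
      Nat.card Λ * {θ | θ ∈ Irr Λ ∧ θ ∈ S}.ncard =
        ∑ a, Nat.card (T a) *
          {lam | lam ∈ IrrS ((T a).map π) ∧ ind (T a) (fun t => X a t * lam (π t)) ∈ S}.ncard

/-- EXT: the canonical extension exists. -/
def ExtStmt : Prop :=
  ∀ (G Δ K : Type) [Group G] [Finite G] [Fintype Δ] [Group K] [Finite K] [MulAction K Δ]
    (v : Finset (Δ → Subgroup G)) (α : Δ → G → ℂ), IsChars v α → ∃ X, IsExt K v α X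

/-- COUNT: the number of characters of the stabiliser of `v` satisfying the block condition. -/
def CountStmt : Prop :=
  ∀ (G Δ K I : Type) [Group G] [Finite G] [Fintype Δ] [Group K] [Finite K] [MulAction K Δ]
    (M : Ideal (integralClosure ℤ ℂ)) (Φ : I → Wreath G Δ K → ℂ) (ws : I → ℂ)
    (v : Finset (Δ → Subgroup G)),
    (∀ z x y, Φ z (y * x * y⁻¹) = Φ z x) →
    (Nat.card (boxStab K v) : ℤ) *
        (({ϑ | ϑ ∈ Irr (boxStab K v) ∧
          Good M (fun z (t : boxStab K v) => Φ z t) ws ϑ}.ncard : ℕ) : ℤ) =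
      ∑ α ∈ charsOf v, (∏ j, (Nat.card (colStab v j) : ℤ)) * (Nat.card (topSt K v α) : ℤ) *
        (({lam | lam ∈ IrrS (topSt K v α) ∧ Good M Φ ws (eta v α lam)}.ncard : ℕ) : ℤ)

/-- FORM: the block condition depends only on the local data. -/
def FormStmt : Prop :=
  ∀ (G Δ K : Type) [Group G] [Finite G] [Fintype Δ] [Group K] [Finite K] [MulAction K Δ]
    (M : Ideal (integralClosure ℤ ℂ)) (v v' : Finset (Δ → Subgroup G)) (α α' : Δ → G → ℂ)
    (U : Subgroup K) (lam : K → ℂ) (Φ : Wreath G Δ K → ℂ),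
    IsChars v α → IsChars v' α' → U ≤ topSt K v α → U ≤ topSt K v' α' → lam ∈ IrrS U →
    (∀ j, dat M v α j = dat M v' α' j) →
    (∀ x y, Φ (y * x * y⁻¹) = Φ x) → (∀ x, IsIntegral ℤ (Φ x)) →
    Cong M (val Φ (eta v α lam)) (val Φ (eta v' α' lam))

/-! ## Part 4: marks -/

open Classical in
/-- MZERO: the alternating sum over the pairs `(v, α)` stabilised by `U`, with given labels, one
of which has vanishing local alternating sum, is zero. -/
def MZeroStmt : Prop :=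
  ∀ (ℓ : ℕ) [Fact ℓ.Prime] (G Δ K : Type) [Group G] [Finite G] [Fintype Δ] [Group K] [Finite K]
    [MulAction K Δ] (M : Ideal (integralClosure ℤ ℂ)) (U : Subgroup K) (j₀ : Δ)
    (β : Δ → G → FF M) (P : (Δ → (G → FF M) × FF M) → Prop),
    opCore ℓ G = ⊥ →
    (∑ d ∈ chainsOn (psub ℓ G) ⊥, (-1) ^ (d.card + 1) * ((Nat.card (stab d) : ℤ) *
      (({a | a ∈ IrrS (stab d) ∧ labF M a = β j₀}.ncard : ℕ) : ℤ)) = 0) →
    (∀ d ∈ chainsOn (psub ℓ G) ⊥, ∀ a ∈ IrrS (stab d), labF M a = β j₀ →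
      red M ((Nat.card (stab d) : ℂ) / a 1) = 0) →
    ∑ v ∈ chainsOn (boxes ℓ G Δ) (fun _ => ⊥), (-1) ^ (v.card + 1) *
      ∑ α ∈ (charsOf v).filter (fun α => U ≤ topSt K v α ∧ (∀ j, labF M (α j) = β j) ∧
        P (dat M v α)), ∏ j, (Nat.card (colStab v j) : ℤ) = 0

open Classical in
/-- MARKS: the pairs `(v, α)` with at least one label of positive defect contribute zero. -/
def MarksStmt : Prop :=
  ∀ (ℓ : ℕ) [Fact ℓ.Prime] (G Δ K I : Type) [Group G] [Finite G] [Fintype Δ] [Group K]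
    [Finite K] [MulAction K Δ] (M : Ideal (integralClosure ℤ ℂ)) (Φ : I → Wreath G Δ K → ℂ)
    (ws : I → ℂ),
    -- the conclusion of FORM
    (∀ (v v' : Finset (Δ → Subgroup G)) (α α' : Δ → G → ℂ) (U : Subgroup K) (lam : K → ℂ) (z : I),
      IsChars v α → IsChars v' α' → U ≤ topSt K v α → U ≤ topSt K v' α' → lam ∈ IrrS U →
      (∀ j, dat M v α j = dat M v' α' j) →
      Cong M (val (Φ z) (eta v α lam)) (val (Φ z) (eta v' α' lam))) →
    -- the conclusion of MZERO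
    (∀ (U : Subgroup K) (j₀ : Δ) (β : Δ → G → FF M) (P : (Δ → (G → FF M) × FF M) → Prop),
      (∃ χ ∈ Irr G, LargeDefect ℓ M χ ∧ β j₀ = labF M χ) →
      ∑ v ∈ chainsOn (boxes ℓ G Δ) (fun _ => ⊥), (-1) ^ (v.card + 1) *
        ∑ α ∈ (charsOf v).filter (fun α => U ≤ topSt K v α ∧ (∀ j, labF M (α j) = β j) ∧
          P (dat M v α)), ∏ j, (Nat.card (colStab v j) : ℤ) = 0) →
    ∑ v ∈ chainsOn (boxes ℓ G Δ) (fun _ => ⊥), (-1) ^ (v.card + 1) *
      ∑ α ∈ (charsOf v).filter (fun α => ∃ j, PosL ℓ M (α j)),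
        (∏ j, (Nat.card (colStab v j) : ℤ)) * (Nat.card (topSt K v α) : ℤ) *
        (({lam | lam ∈ IrrS (topSt K v α) ∧ Good M Φ ws (eta v α lam)}.ncard : ℕ) : ℤ) = 0

/-! ## Part 5: blocks -/

/-- KILL: for a normal `ℓ`-subgroup `D` of `H`, central elements with support outside of the
centraliser of `D` act as zero modulo `M`. -/
def KillStmt : Prop :=
  ∀ (ℓ : ℕ) [Fact ℓ.Prime] (M : Ideal (integralClosure ℤ ℂ)) [M.IsMaximal],
    (ℓ : integralClosure ℤ ℂ) ∈ M → ∀ (H : Type) [Group H] [Finite H] (D : Subgroup H),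
    D.Normal → IsPGroup ℓ D → ∀ ϑ ∈ Irr H, ∀ a : H → ℂ,
    (∀ x y, a (y * x * y⁻¹) = a x) → (∀ x, IsIntegral ℤ (a x)) →
    (∀ x, a x ≠ 0 → ∃ y ∈ D, y * x ≠ x * y) →
    Cong M (val a ϑ) 0

/-- convolution -/
def conv {G : Type} [Group G] (a b : G → ℂ) : G → ℂ := fun x => ∑ᶠ y, a y * b (y⁻¹ * x)

/-- BR: the central character of the induced block is multiplicative. -/
def BrStmt : Prop :=
  ∀ (ℓ : ℕ) [Fact ℓ.Prime] (M : Ideal (integralClosure ℤ ℂ)) [M.IsMaximal],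
    (ℓ : integralClosure ℤ ℂ) ∈ M → ∀ (G : Type) [Group G] [Finite G] (H D : Subgroup G),
    IsPGroup ℓ D → D ≤ H → H ≤ Subgroup.normalizer (D : Set G) →
    Subgroup.centralizer (D : Set G) ≤ H → ∀ ϑ ∈ Irr H, ∀ a b : G → ℂ,
    (∀ x y, a (y * x * y⁻¹) = a x) → (∀ x, IsIntegral ℤ (a x)) →
    (∀ x y, b (y * x * y⁻¹) = b x) → (∀ x, IsIntegral ℤ (b x)) →
    Cong M (val (fun h : H => conv a b h) ϑ)
      (val (fun h : H => a h) ϑ * val (fun h : H => b h) ϑ)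

/-- ALG: every algebra homomorphism on the centre of the group algebra modulo `M` is the central
character of an irreducible character. -/
def AlgStmt : Prop :=
  ∀ (M : Ideal (integralClosure ℤ ℂ)) [M.IsMaximal] (G : Type) [Group G] [Finite G]
    (W : (G → ℂ) →ₗ[ℂ] ℂ),
    (∀ a : G → ℂ, (∀ x y, a (y * x * y⁻¹) = a x) → (∀ x, IsIntegral ℤ (a x)) →
      IsIntegral ℤ (W a)) →
    (∀ a b : G → ℂ, (∀ x y, a (y * x * y⁻¹) = a x) → (∀ x, IsIntegral ℤ (a x)) →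
      (∀ x y, b (y * x * y⁻¹) = b x) → (∀ x, IsIntegral ℤ (b x)) →
      Cong M (W (conv a b)) (W a * W b)) →
    (∀ a : G → ℂ, (∀ x, x ≠ 1 → a x = 0) → a 1 = 1 → Cong M (W a) 1) →
    ∃ χ ∈ Irr G, ∀ a : G → ℂ, (∀ x y, a (y * x * y⁻¹) = a x) → (∀ x, IsIntegral ℤ (a x)) →
      Cong M (W a) (val a χ)

/-- LABEL: induced blocks are defined for stabilisers of chains of `ℓ`-subgroups. -/
def LabelStmt : Prop :=
  ∀ (ℓ : ℕ) [Fact ℓ.Prime] (M : Ideal (integralClosure ℤ ℂ)) [M.IsMaximal],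
    (ℓ : integralClosure ℤ ℂ) ∈ M → ∀ (G : Type) [Group G] [Finite G]
    (d : Finset (Subgroup G)), (∀ D ∈ d, IsPGroup ℓ D) →
    IsChain (· ≤ ·) (d : Set (Subgroup G)) → ∀ a ∈ IrrS (stab d),
    ∃ χ ∈ Irr G, labF M a = labF M χ

/-- POS: facts on blocks of positive defect and of defect zero. -/
def PosStmt : Prop :=
  ∀ (ℓ : ℕ) [Fact ℓ.Prime] (M : Ideal (integralClosure ℤ ℂ)) [M.IsMaximal],
    (ℓ : integralClosure ℤ ℂ) ∈ M → ∀ (G : Type) [Group G] [Finite G], opCore ℓ G = ⊥ →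
    (∀ χ ∈ Irr G, LargeDefect ℓ M χ ↔ red M ((Nat.card G : ℂ) / χ 1) = 0) ∧
    (∀ d ∈ chainsOn (psub ℓ G) ⊥, ∀ a ∈ IrrS (stab d), ∀ χ ∈ Irr G, LargeDefect ℓ M χ →
      labF M a = labF M χ → red M ((Nat.card (stab d) : ℂ) / a 1) = 0) ∧
    (∀ χ ∈ Irr G, LargeDefect ℓ M χ → ∀ g : G,
      ¬ ℓ ∣ Nat.card (Subgroup.centralizer {g} : Subgroup G) → labF M χ g = 0) ∧
    (∀ χ ∈ Irr G, ¬ LargeDefect ℓ M χ → ∃ g : G,
      ¬ ℓ ∣ Nat.card (Subgroup.centralizer {g} : Subgroup G) ∧ labF M χ g ≠ 0)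

/-- LABSUM: the local alternating sum for a label is `|G|` times `altSum`. -/
def LabSumStmt : Prop :=
  ∀ (ℓ : ℕ) [Fact ℓ.Prime] (M : Ideal (integralClosure ℤ ℂ)) (G : Type) [Group G] [Finite G],
    opCore ℓ G = ⊥ → ∀ χ ∈ Irr G,
    ∑ d ∈ chainsOn (psub ℓ G) ⊥, (-1) ^ (d.card + 1) * ((Nat.card (stab d) : ℤ) *
      (({a | a ∈ IrrS (stab d) ∧ labF M a = labF M χ}.ncard : ℕ) : ℤ)) =
      (Nat.card G : ℤ) * altSum ℓ M χ

open Classical in
/-- DZDET: a character of the wreath product that lies over a character of positive defect in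
some coordinate is only matched by pairs `(v, α)` having a label of positive defect. -/
def DzDetStmt : Prop :=
  ∀ (ℓ : ℕ) [Fact ℓ.Prime] (M : Ideal (integralClosure ℤ ℂ)) [M.IsMaximal],
    (ℓ : integralClosure ℤ ℂ) ∈ M → ∀ (G Ω L Δ K : Type) [Group G] [Finite G] [Fintype Ω]
    [Group L] [Finite L] [MulAction L Ω] [Fintype Δ] [Group K] [Finite K] [MulAction K Δ]
    (q : Ω → Δ) (κ : K →* L) (ι : Wreath G Δ K →* Wreath G Ω L),
    Function.Surjective q → Function.Injective κ →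
    (∀ x, ι x = ⟨fun i => x.f (q i), κ x.s⟩) →
    (∀ j, ∃ n, Nat.card {i // q i = j} = ℓ ^ n) →
    ∀ χ ∈ Irr (Wreath G Ω L), ∀ αs : Ω → G → ℂ, (∀ i, αs i ∈ Irr G) → LiesOver χ αs →
    (∃ i, ∀ g : G, ¬ ℓ ∣ Nat.card (Subgroup.centralizer {g} : Subgroup G) →
      labF M (αs i) g = 0) →
    ∀ (v : Finset (Δ → Subgroup G)) (α : Δ → G → ℂ) (lam : K → ℂ), IsChars v α →
    IsExt K v α (ext K v α) → lam ∈ IrrS (topSt K v α) →
    Good M (fun (g : Wreath G Ω L) (t : Wreath G Δ K) => if IsConj g (ι t) then (1 : ℂ) else 0)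
      (fun g => omega (MonoidHom.id _) χ g) (eta v α lam) →
    ∃ j, ∀ g : G, ¬ ℓ ∣ Nat.card (Subgroup.centralizer {g} : Subgroup G) → labF M (α j) g = 0

end Pool.Agent.Helper79_WRA
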