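import Pool.Agent.Helper79_WRA.Fin
import Pool.Agent.Helper44_WRA.Kill
import Pool.Agent.Helper83_WRA.Pos
import Pool.Agent.Helper51_AWC.Abelian

/-!
WRA: groups all of whose alternating sums vanish.
-/

open scoped BigOperators

noncomputable section

namespace Pool.Agent.Helper79_WRA

open Pool.Agent.Helper51_AWC

section

variable {ℓ : ℕ} [hp : Fact ℓ.Prime] {M : Ideal (integralClosure ℤ ℂ)} [hM : M.IsMaximal]

/-- if `O_ℓ(L) ≠ 1` then `|L| / χ(1)` is divisible by `ℓ` -/
theorem codeg_of_opCore (hℓ : (ℓ : integralClosure ℤ ℂ) ∈ M) {L : Type} [Group L] [Finite L]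
    (hL : opCore ℓ L ≠ ⊥) {χ : L → ℂ} (hχ : χ ∈ Irr L) :
    red M ((Nat.card L : ℂ) / χ 1) = 0 := by
  classical
  have := Fintype.ofFinite L
  have hMp : M.IsPrime := hM.isPrime
  obtain ⟨s1, s2, -⟩ := opCore_spec ℓ L
  rw [Nat.card_eq_fintype_card, H83.red_eq_zero_iff (H83.codeg_integral hχ)]
  by_contra hcon
  apply hcon
  have := Fintype.ofFinite (ConjClasses L)
  rw [codeg_eq hχ]
  have h0 : (0 : ℂ) = ∑ _K : ConjClasses L, (0 : ℂ) := by simp
  rw [h0]
  apply Cong.sum
  intro K _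
  by_cases hd : ℓ ∣ Nat.card (Subgroup.centralizer {Quotient.out K} : Subgroup L)
  · have h2 : Cong M ((Fintype.card L : ℂ) / χ 1 * χ (Quotient.out K)⁻¹) 0 := by
      rw [H83.codeg_mul hχ, H83.centralizer_inv_eq]
      exact (cong_nat_of_dvd hℓ hd).mul_zero_right (omega_integral _ hχ _)
    rcases cong_mul_zero (H83.codeg_integral hχ) (irr_integral hχ _) h2 with h3 | h3
    · exact absurd h3 hcon
    · exact h3.mul_zero_left (omega_integral _ hχ _)
  · -- the class lies outside of the centraliser of `O_ℓ(L)`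
    set g : L := Quotient.out K with hg
    have hkill := H44.kill ℓ M hℓ L (opCore ℓ L) s1 s2 χ hχ
      (fun x => if IsConj g x then (1 : ℂ) else 0)
      (by
        intro x y
        have : IsConj g (y * x * y⁻¹) ↔ IsConj g x :=
          ⟨fun h => h.trans (isConj_iff.2 ⟨y⁻¹, by group⟩),
            fun h => h.trans (isConj_iff.2 ⟨y, rfl⟩)⟩
        simp only [this])
      (by
        intro x
        split_ifs
        · exact isIntegral_one
        · exact isIntegral_zero)
      (by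
        intro x hx
        have hgx : IsConj g x := by
          by_contra h
          exact hx (if_neg h)
        by_contra hno
        push Not at hno
        apply hd
        -- `O_ℓ(L)` is contained in the centraliser of `x`
        have hle : opCore ℓ L ≤ Subgroup.centralizer {x} := by
          intro y hy
          rw [Subgroup.mem_centralizer_singleton_iff]
          exact hno y hy
        have hc : Nat.card (Subgroup.centralizer {g} : Subgroup L) =
            Nat.card (Subgroup.centralizer {x} : Subgroup L) := by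
          obtain ⟨c, hc⟩ := isConj_iff.1 hgx
          have e := card_class g
          have e' := card_class x
          have : (Finset.univ.filter fun h => IsConj g h) =
              (Finset.univ.filter fun h => IsConj x h) := by
            ext h
            simp only [Finset.mem_filter, Finset.mem_univ, true_and]
            exact ⟨fun h' => hgx.symm.trans h', fun h' => hgx.trans h'⟩
          rw [this] at e
          have hpos : 0 < (Finset.univ.filter fun h => IsConj x h).card :=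
            Finset.card_pos.2 ⟨x, Finset.mem_filter.2 ⟨Finset.mem_univ _, IsConj.refl x⟩⟩
          exact Nat.eq_of_mul_eq_mul_right hpos (e.trans e'.symm)
        rw [hc]
        have h1 : ℓ ∣ Nat.card (opCore ℓ L) := by
          obtain ⟨n, hn⟩ := IsPGroup.iff_card.1 s2
          have hn0 : n ≠ 0 := by
            rintro rfl
            apply hL
            rw [pow_zero] at hn
            exact Subgroup.eq_bot_of_card_eq _ hn
          rw [hn]
          exact dvd_pow_self _ hn0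
        exact h1.trans (Subgroup.card_dvd_of_le hle))
    have hval : val (fun x => if IsConj g x then (1 : ℂ) else 0) χ =
        omega (MonoidHom.id L) χ g := by
      rw [val_eq, omega_eq]
      congr 1
      apply Finset.sum_congr rfl
      intro x _
      simp only [MonoidHom.id_apply, ite_mul, one_mul, zero_mul]
    rw [hval] at hkill
    exact hkill.mul_zero_right (irr_integral hχ _)

/-- `O_ℓ(N) = 1`, every block of `N` has positive defect, and all the alternating sums of `N`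
vanish -/
def AllVanish (ℓ : ℕ) (M : Ideal (integralClosure ℤ ℂ)) (N : Type) [Group N] : Prop :=
  opCore ℓ N = ⊥ ∧ ∀ χ ∈ Irr N, LargeDefect ℓ M χ ∧ altSum ℓ M χ = 0

theorem AllVanish.nontrivial {N : Type} [Group N] [Finite N] (h : AllVanish ℓ M N) :
    Nontrivial N := by
  classical
  have := Fintype.ofFinite N
  by_contra hcon
  rw [not_nontrivial_iff_subsingleton] at hcon
  have hone : (fun _ : N => (1 : ℂ)) ∈ Irr N := by
    have := linear_mem_Irr (1 : N →* ℂˣ)
    simpa using this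
  obtain ⟨ψ, hψ, -, n, hn, hdvd⟩ := (h.2 _ hone).1
  rw [Nat.card_of_subsingleton (1 : N)] at hdvd
  have h1 := Nat.eq_one_of_mul_eq_one_right (Nat.dvd_one.1 hdvd)
  have h2 := Nat.eq_one_of_mul_eq_one_right h1
  exact hp.out.one_lt.ne' h2

/-- products -/
theorem AllVanish.prod (hps : PosStmt) (hℓ : (ℓ : integralClosure ℤ ℂ) ∈ M)
    {N X : Type} [Group N] [Finite N] [Group X] [Finite X]
    (hN : AllVanish ℓ M N) (hX : opCore ℓ X = ⊥) : AllVanish ℓ M (N × X) := by
  classical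
  have := Fintype.ofFinite N
  have := Fintype.ofFinite X
  have hop : opCore ℓ (N × X) = ⊥ := by
    rw [opCore_prod, hN.1, hX, Subgroup.bot_prod_bot]
  refine ⟨hop, ?_⟩
  intro χ hχ
  obtain ⟨a, ha, b, hb, rfl⟩ := exists_prodChar hχ
  obtain ⟨h1, h2⟩ := hN.2 a ha
  constructor
  · rw [(hps ℓ M hℓ _ hop).1 _ hχ]
    have e : (Nat.card (N × X) : ℂ) / prodChar a b 1 =
        ((Nat.card N : ℂ) / a 1) * ((Nat.card X : ℂ) / b 1) := by
      rw [Nat.card_prod]
      show ((Nat.card N * Nat.card X : ℕ) : ℂ) / (a 1 * b 1) = _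
      push_cast
      rw [div_mul_div_comm]
    rw [e, red_mul (codeg_int ha) (codeg_int hb), ((hps ℓ M hℓ _ hN.1).1 a ha).1 h1, zero_mul]
  · rw [altSum_prod ℓ M ha hb, h2, zero_mul]

/-- characters of the wreath product that lie over a character of positive defect have positive
defect -/
theorem large_of_pos (hps : PosStmt) (hcl : ClsStmt)
    (hℓ : (ℓ : integralClosure ℤ ℂ) ∈ M) {N Ω L : Type} [Group N] [Finite N] [Fintype Ω]
    [Group L] [Finite L] [MulAction L Ω] (hN : opCore ℓ N = ⊥)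
    (hΓ : opCore ℓ (Wreath N Ω L) = ⊥) {χ : Wreath N Ω L → ℂ} (hχ : χ ∈ Irr (Wreath N Ω L))
    {β : Ω → N → ℂ} (hβ : ∀ i, β i ∈ Irr N) (hover : LiesOver χ β)
    (hpos : ∃ i, LargeDefect ℓ M (β i)) : LargeDefect ℓ M χ := by
  classical
  obtain ⟨-, hc2, -⟩ := hcl N Ω L
  obtain ⟨μ, hμ, -, hdeg⟩ := hc2 χ hχ β hβ hover
  rw [(hps ℓ M hℓ _ hΓ).1 χ hχ, codeg_wreath χ β μ hχ hβ hμ hdeg]
  have hui : ∀ i ∈ (Finset.univ : Finset Ω), IsIntegral ℤ ((Nat.card N : ℂ) / β i 1) :=
    fun i _ => codeg_int (hβ i)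
  have huI : IsIntegral ℤ (uu β) := IsIntegral.prod _ hui
  have hμI : IsIntegral ℤ ((Nat.card (LL L β) : ℂ) / μ 1) := by
    have := codeg_int hμ.2
    simpa using this
  rw [red_mul huI hμI]
  obtain ⟨i, hi⟩ := hpos
  have : red M (uu β) = 0 := by
    unfold uu
    rw [red_prod _ _ hui]
    apply Finset.prod_eq_zero (Finset.mem_univ i)
    exact ((hps ℓ M hℓ N hN).1 (β i) (hβ i)).1 hi
  rw [this, zero_mul]

/-- wreath products -/
theorem AllVanish.wreath (hB : MainBStmt) (hps : PosStmt) (hcl : ClsStmt)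
    (hℓ : (ℓ : integralClosure ℤ ℂ) ∈ M) {N Ω L : Type} [Group N] [Finite N]
    [Nonempty Ω] [Finite Ω] [Group L] [Finite L] [MulAction L Ω] [FaithfulSMul L Ω]
    (hN : AllVanish ℓ M N) : AllVanish ℓ M (Wreath N Ω L) := by
  classical
  have := Fintype.ofFinite Ω
  obtain ⟨h1, h2⟩ := hB ℓ M hℓ N hN.nontrivial hN.1 (fun χ hχ _ => (hN.2 χ hχ).2) Ω L
  refine ⟨h1, ?_⟩
  obtain ⟨i₀⟩ := (inferInstance : Nonempty Ω)
  have h3 : Q1For ℓ M (Wreath N Ω L) :=
    h2.2 fun β hβ _ => absurd (hN.2 _ (hβ i₀).1).1 (hβ i₀).2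
  intro χ hχ
  obtain ⟨-, -, hc3⟩ := hcl N Ω L
  obtain ⟨β, hβ, hover⟩ := hc3 χ hχ
  have h4 : LargeDefect ℓ M χ :=
    large_of_pos hps hcl hℓ hN.1 h1 hχ hβ hover ⟨i₀, (hN.2 _ (hβ i₀)).1⟩
  exact ⟨h4, h3 χ hχ h4⟩

/-- `O_ℓ` of the whole group as a subgroup -/
theorem opCore_top_ne {L : Type} [Group L] [Finite L] {U : Subgroup L} (hU : U = ⊤)
    (hL : opCore ℓ L ≠ ⊥) : opCore ℓ U ≠ ⊥ := by
  subst hU
  intro h
  apply hL
  obtain ⟨s1, s2, -⟩ := opCore_spec ℓ L
  obtain ⟨-, -, s3⟩ := opCore_spec ℓ (⊤ : Subgroup L)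
  have h1 := s3 ((opCore ℓ L).subgroupOf ⊤) (Subgroup.Normal.subgroupOf s1 _)
    (s2.comap_of_injective _ Subtype.val_injective)
  rw [h] at h1
  rw [eq_bot_iff]
  intro x hx
  have h2 : (⟨x, Subgroup.mem_top x⟩ : (⊤ : Subgroup L)) ∈ (opCore ℓ L).subgroupOf ⊤ :=
    Subgroup.mem_subgroupOf.2 hx
  have h3 := h1 h2
  rw [Subgroup.mem_bot] at h3 ⊢
  exact congrArg Subtype.val h3

/-- wreath products of a group with at most one character of defect zero -/
theorem AllVanish.of_uniq (hB : MainBStmt) (hps : PosStmt) (hcl : ClsStmt)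
    (hℓ : (ℓ : integralClosure ℤ ℂ) ∈ M) {G Ω L : Type} [Group G] [Finite G]
    [Finite Ω] [Group L] [Finite L] [MulAction L Ω] [FaithfulSMul L Ω]
    (hnt : Nontrivial G) (hG : opCore ℓ G = ⊥) (hQ : Q1For ℓ M G)
    (huniq : ∀ ξ ∈ DZ ℓ M G, ∀ ξ' ∈ DZ ℓ M G, ξ = ξ') (hL : opCore ℓ L ≠ ⊥) :
    AllVanish ℓ M (Wreath G Ω L) := by
  classical
  have := Fintype.ofFinite Ω
  obtain ⟨h1, h2⟩ := hB ℓ M hℓ G hnt hG hQ Ω L
  refine ⟨h1, ?_⟩
  have hst : ∀ β : Ω → G → ℂ, (∀ i, β i ∈ DZ ℓ M G) → famStab L β = ⊤ := by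
    intro β hβ
    rw [eq_top_iff]
    intro l _ i
    exact huniq _ (hβ _) _ (hβ _)
  have h3 : Q1For ℓ M (Wreath G Ω L) :=
    h2.2 fun β hβ hop => absurd hop (opCore_top_ne (hst β hβ) hL)
  intro χ hχ
  obtain ⟨-, hc2, hc3⟩ := hcl G Ω L
  obtain ⟨β, hβ, hover⟩ := hc3 χ hχ
  have h4 : LargeDefect ℓ M χ := by
    by_cases hpos : ∃ i, LargeDefect ℓ M (β i)
    · exact large_of_pos hps hcl hℓ hG h1 hχ hβ hover hpos
    · have hβD : ∀ i, β i ∈ DZ ℓ M G := fun i => ⟨hβ i, fun h => hpos ⟨i, h⟩⟩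
      obtain ⟨μ, hμ, -, hdeg⟩ := hc2 χ hχ β hβ hover
      rw [(hps ℓ M hℓ _ h1).1 χ hχ, codeg_wreath χ β μ hχ hβ hμ hdeg]
      have hui : ∀ i ∈ (Finset.univ : Finset Ω), IsIntegral ℤ ((Nat.card G : ℂ) / β i 1) :=
        fun i _ => codeg_int (hβ i)
      have huI : IsIntegral ℤ (uu β) := IsIntegral.prod _ hui
      have hμI : IsIntegral ℤ ((Nat.card (LL L β) : ℂ) / μ 1) := by
        have := codeg_int hμ.2
        simpa using this
      have hLL : opCore ℓ (LL L β) ≠ ⊥ := by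
        apply opCore_top_ne _ hL
        rw [LL_eq hβ, hst β hβD]
      have h5 := codeg_of_opCore hℓ hLL hμ.2
      have h6 : ((Nat.card (LL L β) : ℂ) / μ 1) =
          (Nat.card (LL L β) : ℂ) / (fun h : LL L β => μ h) 1 := by simp
      rw [red_mul huI hμI, h6, h5, mul_zero]
  exact ⟨h4, h3 χ hχ h4⟩

end

/-- The groups obtained from `AGL_1(F) wr L`, where `ℓ` divides `|F| - 1` and `L` is a faithful
permutation group with `O_ℓ(L) ≠ 1`, by repeatedly forming the product with a finite group `X`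
with `O_ℓ(X) = 1` and the wreath product with a finite permutation group. -/
inductive Tower (ℓ : ℕ) : (N : Type) → [Group N] → Prop
  | affine (F Ω L : Type) [Field F] [Finite F] [Finite Ω] [Group L] [Finite L] [MulAction L Ω]
      [FaithfulSMul L Ω] : ℓ ∣ Nat.card F - 1 → opCore ℓ L ≠ ⊥ → Tower ℓ (Wreath (Aff F) Ω L)
  | prod (N X : Type) [Group N] [Group X] [Finite X] :
      Tower ℓ N → opCore ℓ X = ⊥ → Tower ℓ (N × X)
  | wreath (N Ω L : Type) [Group N] [Nonempty Ω] [Finite Ω] [Group L] [Finite L]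
      [MulAction L Ω] [FaithfulSMul L Ω] : Tower ℓ N → Tower ℓ (Wreath N Ω L)

theorem tower_of (hB : MainBStmt) (hps : PosStmt) (hcl : ClsStmt) (hafb : AfbStmt)
    (haff : AffStmt) (ℓ : ℕ) [hp : Fact ℓ.Prime] (M : Ideal (integralClosure ℤ ℂ))
    [M.IsMaximal] (hℓ : (ℓ : integralClosure ℤ ℂ) ∈ M) (N : Type) [Group N]
    (hN : Tower ℓ N) : Finite N ∧ AllVanish ℓ M N := by
  induction hN with
  | affine F Ω L hdvd hL =>
    obtain ⟨h1, h2⟩ := haff ℓ M hℓ F hdvd
    have hnt : Nontrivial (Aff F) := ⟨⟨⟨1, 0⟩, ⟨1, 1⟩, fun h => by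
      have := congrArg Aff.b h
      exact zero_ne_one this⟩⟩
    exact ⟨inferInstance, AllVanish.of_uniq hB hps hcl hℓ hnt h1 h2
      (aff_uniq hps hafb M hℓ hdvd h1) hL⟩
  | prod N X h hX ih =>
    obtain ⟨hf, ih⟩ := ih
    exact ⟨inferInstance, ih.prod hps hℓ hX⟩
  | wreath N Ω L h ih =>
    obtain ⟨hf, ih⟩ := ih
    exact ⟨inferInstance, ih.wreath hB hps hcl hℓ⟩

end Pool.Agent.Helper79_WRA
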