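import Pool.Agent.Helper79_WRA.Stmt
import Pool.Agent.Helper79_WRA.Basic

/-!
WRA: the main theorem from the modules.
-/

open scoped BigOperators

noncomputable section

namespace Pool.Agent.Helper79_WRA

open Pool.Agent.Helper51_AWC

/-- the statement of the main theorem -/
def MainStmt : Prop :=
  ∀ (ℓ : ℕ) [Fact ℓ.Prime] (M : Ideal (integralClosure ℤ ℂ)) [M.IsMaximal],
    (ℓ : integralClosure ℤ ℂ) ∈ M → ∀ (G : Type) [Group G] [Finite G], opCore ℓ G = ⊥ →
    (∀ χ ∈ Irr G, LargeDefect ℓ M χ → altSum ℓ M χ = 0) →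
    ∀ (Ω L : Type) [Fintype Ω] [Group L] [Finite L] [MulAction L Ω] [FaithfulSMul L Ω],
    ∀ χ ∈ Irr (Wreath G Ω L), ∀ αs : Ω → G → ℂ, (∀ i, αs i ∈ Irr G) → LiesOver χ αs →
    (∃ i, LargeDefect ℓ M (αs i)) → altSum ℓ M χ = 0

theorem main_of (hcr : ChainRedStmt) (htz : TZeroStmt) (htc : TConjStmt) (hoc : OpCoreStmt)
    (htw : TwistStmt) (hla : LambdaStmt) (htr : TransStmt) (hbx : BoxStmt) (hext : ExtStmt)
    (hct : CountStmt) (hfm : FormStmt) (hmz : MZeroStmt) (hmk : MarksStmt) (hlb : LabelStmt)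
    (hps : PosStmt) (hls : LabSumStmt) (hdz : DzDetStmt) : MainStmt := by
  classical
  intro ℓ _ M _ hℓ G _ _ hG hQ Ω L _ _ _ _ _ χ hχ αs hαs hover hpos
  obtain ⟨i₀, hi₀⟩ := hpos
  obtain ⟨hp1, hp2, hp3, hp4⟩ := hps ℓ M hℓ G hG
  -- `G` is nontrivial
  have hnt : Nontrivial G := by
    by_contra hcon
    rw [not_nontrivial_iff_subsingleton] at hcon
    have hc : (Subgroup.centralizer {(1 : G)} : Subgroup G) = ⊤ := by
      rw [eq_top_iff]
      intro x _
      rw [Subgroup.mem_centralizer_iff]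
      intro y _
      exact Subsingleton.elim _ _
    have h1 : ¬ ℓ ∣ Nat.card (Subgroup.centralizer {(1 : G)} : Subgroup G) := by
      rw [hc, Subgroup.card_top, Nat.card_of_subsingleton (1 : G)]
      exact (Fact.out : ℓ.Prime).one_lt.ne' ∘ Nat.dvd_one.1
    have h2 := hp3 _ (hαs i₀) hi₀ 1 h1
    unfold labF at h2
    have h3 : omega (MonoidHom.id G) (αs i₀) 1 = 1 :=
      omega_one Function.injective_id (irr_one_ne (hαs i₀))
    rw [h3, red_one] at h2
    have : (1 : FF M) ≠ 0 := by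
      rw [← map_one (Ideal.Quotient.mk M)]
      intro h
      exact (Ideal.ne_top_iff_one M).1 (Ideal.IsMaximal.ne_top inferInstance)
        (Ideal.Quotient.eq_zero_iff_mem.1 h)
    exact this h2
  have hΓ : opCore ℓ (Wreath G Ω L) = ⊥ := hoc ℓ G Ω L hnt hG
  have hcard : ((Nat.card (Wreath G Ω L) : ℤ)) ≠ 0 := by exact_mod_cast Nat.card_pos.ne'
  apply mul_left_cancel₀ hcard
  rw [mul_zero, card_mul_altSum, hΓ]
  -- the weight as a function of the stabiliser
  let w : Subgroup (Wreath G Ω L) → ℤ := fun H =>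
    (Nat.card H : ℤ) * ((IrrBlock M H.subtype χ).ncard : ℤ)
  have hw : ∀ d : Finset (Subgroup (Wreath G Ω L)), (weight M χ d : ℤ) = w (stab d) := by
    intro d
    simp only [weight, w]
    push_cast
    rfl
  have hwc : ∀ g H, w (conjS g H) = w H := by
    intro g H
    simp only [w]
    rw [(weight_conjS M χ g H).1, (weight_conjS M χ g H).2]
  simp_rw [hw]
  have hN : (Wreath.base : (Ω → G) →* Wreath G Ω L).range.Normal := by
    refine ⟨?_⟩
    intro x hx g
    rw [Wreath.mem_base_range] at hx ⊢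
    rw [Wreath.conj_s, hx, mul_one, mul_inv_cancel]
  rw [hcr ℓ (Wreath G Ω L) _ hN hΓ w]
  apply Finset.sum_eq_zero
  intro c hc
  obtain ⟨hc, hcN⟩ := Finset.mem_filter.1 hc
  obtain ⟨hc1, hc2, hc3⟩ := mem_chainsOn.1 hc
  apply mul_eq_zero_of_right
  have hcp : ∀ D ∈ c, IsPGroup ℓ D := fun D hD => (mem_psub.1 (hc1 hD)).2
  rcases htw ℓ G Ω L c hcp ⟨_, hc2⟩ hc3 hcN with hz | ⟨g, hg⟩
  · exact htz ℓ _ _ hN w c hz
  -- conjugate `c` into the top group
  rw [← htc ℓ _ _ hN w hwc (Wreath.base g) c]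
  have hc'p : ∀ D ∈ c.image (conjS (Wreath.base g)), IsPGroup ℓ D := by
    intro D hD
    obtain ⟨E, hE, rfl⟩ := Finset.mem_image.1 hD
    exact conjS_pgroup (hcp E hE)
  have hc'3 : IsChain (· ≤ ·)
      ((c.image (conjS (Wreath.base g)) : Finset _) : Set (Subgroup (Wreath G Ω L))) := by
    intro D hD E hE hne
    obtain ⟨D', hD', rfl⟩ := Finset.mem_image.1 (Finset.mem_coe.1 hD)
    obtain ⟨E', hE', rfl⟩ := Finset.mem_image.1 (Finset.mem_coe.1 hE)
    rcases chain_total hc3 hD' hE' with h | h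
    · left; exact conjS_mono.2 h
    · right; exact conjS_mono.2 h
  have hc't : ∀ D ∈ c.image (conjS (Wreath.base g)),
      D ≤ (Wreath.top : L →* Wreath G Ω L).range := by
    intro D hD
    obtain ⟨E, hE, rfl⟩ := Finset.mem_image.1 hD
    exact hg E hE
  obtain ⟨Δ, K, _, _, _, _, q, κ, ι, hq, hκ, hι, hcompat, hιf, hfib, hrange, hcent⟩ :=
    hla ℓ G Ω L _ hc'p ⟨_, Finset.mem_image_of_mem _ hc2⟩ hc'3 hc't
  rw [htr ℓ (Wreath G Ω L) G Δ K _ w _ ι hι hrange hcent]
  rw [hbx ℓ G Δ K hG (fun H => w (H.map ι))]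
  -- the block condition
  let Φ : Wreath G Ω L → Wreath G Δ K → ℂ := fun g t => if IsConj g (ι t) then (1 : ℂ) else 0
  let ws : Wreath G Ω L → ℂ := fun g => omega (MonoidHom.id _) χ g
  have hΦc : ∀ z x y, Φ z (y * x * y⁻¹) = Φ z x := by
    intro z x y
    simp only [Φ]
    have : IsConj z (ι (y * x * y⁻¹)) ↔ IsConj z (ι x) := by
      have h1 : IsConj (ι x) (ι (y * x * y⁻¹)) := by
        rw [map_mul, map_mul, map_inv]
        exact isConj_iff.2 ⟨ι y, rfl⟩
      exact ⟨fun h => h.trans h1.symm, fun h => h.trans h1⟩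
    simp only [this]
  have hΦi : ∀ z x, IsIntegral ℤ (Φ z x) := by
    intro z x
    simp only [Φ]
    split_ifs
    · exact isIntegral_one
    · exact isIntegral_zero
  have hwv : ∀ v : Finset (Δ → Subgroup G), w ((boxStab K v).map ι) =
      (Nat.card (boxStab K v) : ℤ) * (({ϑ | ϑ ∈ Irr (boxStab K v) ∧
          Good M (fun z (t : boxStab K v) => Φ z t) ws ϑ}.ncard : ℕ) : ℤ) := by
    intro v
    obtain ⟨h1, h2⟩ := weight_range M χ (ι.comp (boxStab K v).subtype)
      (hι.comp (boxStab K v).subtype_injective) ((boxStab K v).map ι) (by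
        rw [MonoidHom.range_comp, Subgroup.range_subtype])
    simp only [w]
    rw [h1, h2]
    congr 3
    ext ϑ
    have := Fintype.ofFinite (boxStab K v)
    simp only [IrrBlock, Set.mem_ofPred_eq, Good]
    have h3 : ∀ g, omega (ι.comp (boxStab K v).subtype) ϑ g =
        val (fun t : boxStab K v => Φ g t) ϑ := by
      intro g
      rw [omega_eq, val_eq]
      congr 1
      apply Finset.sum_congr rfl
      intro t _
      simp only [Φ]
      by_cases hgt : IsConj g (ι t)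
      · rw [if_pos hgt, one_mul]
        exact if_pos hgt
      · rw [if_neg hgt, zero_mul]
        exact if_neg hgt
    simp_rw [h3]
    rfl
  simp_rw [hwv]
  have hcount := fun v : Finset (Δ → Subgroup G) => hct G Δ K (Wreath G Ω L) M Φ ws v hΦc
  simp_rw [hcount]
  -- only the pairs with a label of positive defect matter
  have hmarks := hmk ℓ G Δ K (Wreath G Ω L) M Φ ws
    (fun v v' α α' U lam z h1 h2 h3 h4 h5 h6 =>
      hfm G Δ K M v v' α α' U lam (Φ z) h1 h2 h3 h4 h5 h6 (hΦc z) (hΦi z))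
    (fun U j₀ β P hβ => by
      obtain ⟨χ', hχ', hLD, hβ'⟩ := hβ
      apply hmz ℓ G Δ K M U j₀ β P hG
      · rw [hβ', hls ℓ M G hG χ' hχ', hQ χ' hχ' hLD, mul_zero]
      · intro d hd a ha h
        exact hp2 d hd a ha χ' hχ' hLD (h.trans hβ'))
  rw [← hmarks]
  apply Finset.sum_congr rfl
  intro v hv
  congr 1
  symm
  apply Finset.sum_subset (Finset.filter_subset _ _)
  intro α hα hnα
  have hno : ¬ ∃ j, PosL ℓ M (α j) := fun h => hnα (Finset.mem_filter.2 ⟨hα, h⟩)
  have hαc := mem_charsOf.1 hα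
  apply mul_eq_zero_of_right
  have hempty : {lam | lam ∈ IrrS (topSt K v α) ∧ Good M Φ ws (eta v α lam)} = ∅ := by
    rw [Set.eq_empty_iff_forall_notMem]
    rintro lam ⟨hlam, hgood⟩
    apply hno
    have hX : IsExt K v α (ext K v α) := by
      have := hext G Δ K v α hαc
      unfold ext
      rw [dif_pos this]
      exact this.choose_spec
    obtain ⟨j, hj⟩ := hdz ℓ M hℓ G Ω L Δ K q κ ι hq hκ hιf hfib χ hχ αs hαs hover
      ⟨i₀, hp3 _ (hαs i₀) hi₀⟩ v α lam hαc hX hlam hgood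
    refine ⟨j, ?_⟩
    obtain ⟨hv1, hv2, hv3⟩ := mem_chainsOn.1 hv
    obtain ⟨e, he⟩ : ∃ e : Finset (Subgroup G), e = v.image (fun R => R j) := ⟨_, rfl⟩
    have hcol : α j ∈ IrrS (stab e) := by
      rw [he, ← colStab_eq]; exact hαc j
    have he1 : ∀ D ∈ e, IsPGroup ℓ D := by
      intro D hD
      rw [he] at hD
      obtain ⟨R, hR, rfl⟩ := Finset.mem_image.1 hD
      exact (mem_psub.1 (mem_boxes.1 (hv1 hR) j)).2
    have he2 : IsChain (· ≤ ·) (e : Set (Subgroup G)) := by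
      intro D hD E hE hne
      rw [he] at hD hE
      obtain ⟨R, hR, rfl⟩ := Finset.mem_image.1 (Finset.mem_coe.1 hD)
      obtain ⟨R', hR', rfl⟩ := Finset.mem_image.1 (Finset.mem_coe.1 hE)
      rcases chain_total hv3 hR hR' with h | h
      · left; exact h j
      · right; exact h j
    obtain ⟨χ', hχ', hlab⟩ := hlb ℓ M hℓ G e he1 he2 (α j) hcol
    refine ⟨χ', hχ', ?_, hlab⟩
    by_contra hnl
    obtain ⟨g', hg', hg''⟩ := hp4 χ' hχ' hnl
    apply hg''
    rw [← hlab]
    exact hj g' hg'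
  rw [hempty, Set.ncard_empty]
  rfl

end Pool.Agent.Helper79_WRA
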