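import Pool.Agent.Helper79_WRA.StmtB
import Pool.Agent.Helper79_WRA.Asm

/-!
WRA, second stage: assembly.
-/

open scoped BigOperators

noncomputable section

namespace Pool.Agent.Helper79_WRA

open Pool.Agent.Helper51_AWC

section basics

variable {G Ω L : Type} [Group G] [Group L] [MulAction L Ω]

theorem mem_LL {β : Ω → G → ℂ} (hβ : ∀ i, β i ∈ Irr G) {h : L} :
    h ∈ LL L β ↔ ∀ i, β (h⁻¹ • i) = β i := by
  classical
  unfold LL
  rw [mem_topSt]
  constructor
  · intro H i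
    obtain ⟨g, _, hg⟩ := H i
    funext y
    rw [← hg y, irr_conj (hβ i)]
  · intro H i
    refine ⟨1, ?_, ?_⟩
    · intro R hR
      rw [Finset.mem_singleton.1 hR, conjS_one]
    · intro y
      rw [one_mul, inv_one, mul_one, H i]

theorem isChars_triv {β : Ω → G → ℂ} : IsChars (triv G Ω) β ↔ ∀ i, β i ∈ Irr G := by
  classical
  have h : ∀ i, colStab (triv G Ω) i = ⊤ := by
    intro i
    rw [eq_top_iff]
    intro g _
    rw [mem_colStab]
    intro R hR
    rw [Finset.mem_singleton.1 hR]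
    ext x
    rw [mem_conjS, Subgroup.mem_bot, Subgroup.mem_bot]
    constructor
    · intro hx
      have : x = g * (g⁻¹ * x * g) * g⁻¹ := by group
      rw [this, hx]; group
    · rintro rfl; group
  constructor
  · intro H i
    have := H i
    rw [h i] at this
    exact mem_IrrS_top.1 this
  · intro H i
    show β i ∈ IrrS (colStab (triv G Ω) i)
    rw [h i]
    exact mem_IrrS_top.2 (H i)

theorem colStab_triv (i : Ω) : colStab (triv G Ω) i = ⊤ := by
  classical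
  rw [eq_top_iff]
  intro g _
  rw [mem_colStab]
  intro R hR
  rw [Finset.mem_singleton.1 hR]
  ext x
  rw [mem_conjS, Subgroup.mem_bot, Subgroup.mem_bot]
  constructor
  · intro hx
    have : x = g * (g⁻¹ * x * g) * g⁻¹ := by group
    rw [this, hx]; group
  · rintro rfl; group

end basics

section inner

variable {G Ω L : Type} [Group G] [Finite G] [Fintype Ω] [Group L] [Finite L] [MulAction L Ω]

/-- the weight as a function of the stabiliser -/
def wt (M : Ideal (integralClosure ℤ ℂ)) (χ : Wreath G Ω L → ℂ) (H : Subgroup (Wreath G Ω L)) :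
    ℤ := (Nat.card H : ℤ) * ((IrrBlock M H.subtype χ).ncard : ℤ)

omit [Finite G] [Fintype Ω] [Finite L] in
theorem wt_conj (M : Ideal (integralClosure ℤ ℂ)) (χ : Wreath G Ω L → ℂ) (g : Wreath G Ω L)
    (H : Subgroup (Wreath G Ω L)) : wt M χ (conjS g H) = wt M χ H := by
  unfold wt
  rw [(weight_conjS M χ g H).1, (weight_conjS M χ g H).2]

/-- the inner sum as a sum over pairs `(v, α)` -/
theorem inner_sum (htr : TransStmt) (hbx : BoxStmt) (hct : CountStmt) (ℓ : ℕ) [Fact ℓ.Prime]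
    (M : Ideal (integralClosure ℤ ℂ)) (hG : opCore ℓ G = ⊥) (χ : Wreath G Ω L → ℂ)
    {Δ K : Type} [Fintype Δ] [Group K] [Finite K] [MulAction K Δ]
    (ι : Wreath G Δ K →* Wreath G Ω L) (hι : Function.Injective ι)
    (c : Finset (Subgroup (Wreath G Ω L))) (hrange : ι.range = stab c)
    (hcent : cent (Wreath.base : (Ω → G) →* Wreath G Ω L).range c =
        (ι.comp (Wreath.base : (Δ → G) →* Wreath G Δ K)).range) :
    tsum ℓ (Wreath.base : (Ω → G) →* Wreath G Ω L).range (wt M χ) c =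
      ∑ v ∈ chainsOn (boxes ℓ G Δ) (fun _ => ⊥), (-1) ^ (v.card + 1) *
        ∑ α ∈ charsOf v, (∏ j, (Nat.card (colStab v j) : ℤ)) * (Nat.card (topSt K v α) : ℤ) *
        (({lam | lam ∈ IrrS (topSt K v α) ∧ Good M (clas ι)
          (fun g => omega (MonoidHom.id _) χ g) (eta v α lam)}.ncard : ℕ) : ℤ) := by
  classical
  rw [htr ℓ (Wreath G Ω L) G Δ K _ (wt M χ) _ ι hι hrange hcent]
  rw [hbx ℓ G Δ K hG (fun H => wt M χ (H.map ι))]
  have hΦc : ∀ z x y, clas ι z (y * x * y⁻¹) = clas ι z x := by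
    intro z x y
    have : IsConj z (ι (y * x * y⁻¹)) ↔ IsConj z (ι x) := by
      have h1 : IsConj (ι x) (ι (y * x * y⁻¹)) := by
        rw [map_mul, map_mul, map_inv]
        exact isConj_iff.2 ⟨ι y, rfl⟩
      exact ⟨fun h => h.trans h1.symm, fun h => h.trans h1⟩
    unfold clas
    simp only [this]
  have hwv : ∀ v : Finset (Δ → Subgroup G), wt M χ ((boxStab K v).map ι) =
      (Nat.card (boxStab K v) : ℤ) * (({ϑ | ϑ ∈ Irr (boxStab K v) ∧
          Good M (fun z (t : boxStab K v) => clas ι z t)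
            (fun g => omega (MonoidHom.id _) χ g) ϑ}.ncard : ℕ) : ℤ) := by
    intro v
    obtain ⟨h1, h2⟩ := weight_range M χ (ι.comp (boxStab K v).subtype)
      (hι.comp (boxStab K v).subtype_injective) ((boxStab K v).map ι) (by
        rw [MonoidHom.range_comp, Subgroup.range_subtype])
    unfold wt
    rw [h1, h2]
    congr 3
    ext ϑ
    have := Fintype.ofFinite (boxStab K v)
    simp only [IrrBlock, Set.mem_ofPred_eq, Good]
    have h3 : ∀ g, omega (ι.comp (boxStab K v).subtype) ϑ g =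
        val (fun t : boxStab K v => clas ι g t) ϑ := by
      intro g
      rw [omega_eq, val_eq]
      congr 1
      apply Finset.sum_congr rfl
      intro t _
      unfold clas
      by_cases hgt : IsConj g (ι t)
      · rw [if_pos hgt, one_mul]
        exact if_pos hgt
      · rw [if_neg hgt, zero_mul]
        exact if_neg hgt
    simp_rw [h3]
  simp_rw [hwv]
  apply Finset.sum_congr rfl
  intro v _
  rw [hct G Δ K (Wreath G Ω L) M (clas ι) (fun g => omega (MonoidHom.id _) χ g) v hΦc]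

/-- the inner sum for a chain of the top group: only characters of defect zero contribute -/
theorem rsum (htr : TransStmt) (hbx : BoxStmt) (hct : CountStmt) (hfm : FormStmt)
    (hmz : MZeroStmt) (hmk : MarksStmt) (hlb : LabelStmt) (hps : PosStmt) (hls : LabSumStmt)
    (hdn : DznStmt) (hl2 : Lambda2Stmt) (ℓ : ℕ) [Fact ℓ.Prime]
    (M : Ideal (integralClosure ℤ ℂ)) [M.IsMaximal] (hℓ : (ℓ : integralClosure ℤ ℂ) ∈ M)
    (hG : opCore ℓ G = ⊥) (hQ : ∀ χ ∈ Irr G, LargeDefect ℓ M χ → altSum ℓ M χ = 0)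
    (χ : Wreath G Ω L → ℂ) (c : Finset (Subgroup L))
    (hc : c ∈ chainsOn (psubIn ℓ (⊤ : Subgroup L)) ⊥) :
    tsum ℓ (Wreath.base : (Ω → G) →* Wreath G Ω L).range (wt M χ) (topc c G Ω) =
      (Nat.card G : ℤ) ^ Nat.card (Dl c Ω) *
        ∑ᶠ (α : Dl c Ω → G → ℂ) (_ : α ∈ dzFun ℓ M G (Dl c Ω)),
          (Nat.card (LL (stab c) α) : ℤ) *
            (({lam | lam ∈ IrrS (LL (stab c) α) ∧ GoodC M c χ α lam}.ncard : ℕ) : ℤ) := by
  classical
  obtain ⟨hp1, hp2, hp3, hp4⟩ := hps ℓ M hℓ G hG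
  obtain ⟨hc1, hc2, hc3⟩ := mem_chainsOn.1 hc
  obtain ⟨-, -, hinj, -, -, hrange, hcent, -, -⟩ := hl2 ℓ G Ω L c
    (fun D hD => (mem_psubIn.1 (hc1 hD)).2) ⟨_, hc2⟩ hc3
  rw [inner_sum htr hbx hct ℓ M hG χ (iota c G Ω) hinj (topc c G Ω) hrange hcent]
  set ι := iota c G Ω with hι
  have hΦc : ∀ z x y, clas ι z (y * x * y⁻¹) = clas ι z x := by
    intro z x y
    have : IsConj z (ι (y * x * y⁻¹)) ↔ IsConj z (ι x) := by
      have h1 : IsConj (ι x) (ι (y * x * y⁻¹)) := by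
        rw [map_mul, map_mul, map_inv]
        exact isConj_iff.2 ⟨ι y, rfl⟩
      exact ⟨fun h => h.trans h1.symm, fun h => h.trans h1⟩
    unfold clas
    simp only [this]
  have hΦi : ∀ z x, IsIntegral ℤ (clas ι z x) := by
    intro z x
    unfold clas
    split_ifs
    · exact isIntegral_one
    · exact isIntegral_zero
  have hmarks := hmk ℓ G (Dl c Ω) (stab c) (Wreath G Ω L) M (clas ι)
    (fun g => omega (MonoidHom.id _) χ g)
    (fun v v' α α' U lam z h1 h2 h3 h4 h5 h6 =>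
      hfm G (Dl c Ω) (stab c) M v v' α α' U lam (clas ι z) h1 h2 h3 h4 h5 h6 (hΦc z) (hΦi z))
    (fun U j₀ β P hβ => by
      obtain ⟨χ', hχ', hLD, hβ'⟩ := hβ
      apply hmz ℓ G (Dl c Ω) (stab c) M U j₀ β P hG
      · rw [hβ', hls ℓ M G hG χ' hχ', hQ χ' hχ' hLD, mul_zero]
      · intro d hd a ha h
        exact hp2 d hd a ha χ' hχ' hLD (h.trans hβ'))
  -- abbreviate the summand
  set F : Finset (Dl c Ω → Subgroup G) → (Dl c Ω → G → ℂ) → ℤ := fun v α =>
    (∏ j, (Nat.card (colStab v j) : ℤ)) * (Nat.card (topSt (stab c) v α) : ℤ) *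
        (({lam | lam ∈ IrrS (topSt (stab c) v α) ∧ Good M (clas ι)
          (fun g => omega (MonoidHom.id _) χ g) (eta v α lam)}.ncard : ℕ) : ℤ) with hF
  have hsplit : ∀ v : Finset (Dl c Ω → Subgroup G), ∑ α ∈ charsOf v, F v α =
      ∑ α ∈ (charsOf v).filter (fun α => ∃ j, PosL ℓ M (α j)), F v α +
      ∑ α ∈ (charsOf v).filter (fun α => ¬ ∃ j, PosL ℓ M (α j)), F v α := by
    intro v
    rw [Finset.sum_filter_add_sum_filter_not]
  -- no positive label forces `v` to be trivial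
  have htriv : ∀ v ∈ chainsOn (boxes ℓ G (Dl c Ω)) (fun _ => ⊥), ∀ α ∈ charsOf v,
      (¬ ∃ j, PosL ℓ M (α j)) → v = triv G (Dl c Ω) := by
    intro v hv α hα hno
    have hαc := mem_charsOf.1 hα
    obtain ⟨hv1, hv2, hv3⟩ := mem_chainsOn.1 hv
    have hall : ∀ R ∈ v, R = fun _ => ⊥ := by
      intro R hR
      funext j
      by_contra hne
      obtain ⟨e, he⟩ : ∃ e : Finset (Subgroup G), e = v.image (fun R => R j) := ⟨_, rfl⟩
      have hcol : α j ∈ IrrS (stab e) := by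
        rw [he, ← colStab_eq]; exact hαc j
      have he1 : ∀ D ∈ e, IsPGroup ℓ D := by
        intro D hD
        rw [he] at hD
        obtain ⟨R, hR, rfl⟩ := Finset.mem_image.1 hD
        exact (mem_psub.1 (mem_boxes.1 (hv1 hR) j)).2
      have he2 : IsChain (· ≤ ·) (e : Set (Subgroup G)) := by
        intro D hD E hE hne
        rw [he] at hD hE
        obtain ⟨R, hR, rfl⟩ := Finset.mem_image.1 (Finset.mem_coe.1 hD)
        obtain ⟨R', hR', rfl⟩ := Finset.mem_image.1 (Finset.mem_coe.1 hE)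
        rcases chain_total hv3 hR hR' with h | h
        · left; exact h j
        · right; exact h j
      have he3 : ∃ D ∈ e, D ≠ ⊥ := by
        refine ⟨R j, ?_, hne⟩
        rw [he]
        exact Finset.mem_image_of_mem _ hR
      obtain ⟨χ', hχ', hlab⟩ := hlb ℓ M hℓ G e he1 he2 (α j) hcol
      have hnl : ¬ LargeDefect ℓ M χ' := fun h => hno ⟨j, χ', hχ', h, hlab⟩
      obtain ⟨g, hg, hg'⟩ := hp4 χ' hχ' hnl
      apply hg'
      rw [← hlab]
      exact hdn ℓ M hℓ G e he1 he2 he3 (α j) hcol g hg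
    ext R
    constructor
    · intro hR
      exact Finset.mem_singleton.2 (hall R hR)
    · intro hR
      rw [Finset.mem_singleton.1 hR]
      exact hv2
  have hmemtriv : triv G (Dl c Ω) ∈ chainsOn (boxes ℓ G (Dl c Ω)) (fun _ => ⊥) := by
    rw [mem_chainsOn]
    refine ⟨?_, Finset.mem_singleton_self _, ?_⟩
    · intro R hR
      rw [Finset.mem_singleton.1 hR, mem_boxes]
      intro j
      rw [mem_psub, hG]
      exact ⟨le_refl _, IsPGroup.of_bot⟩
    · intro R hR R' hR' hne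
      exact absurd ((Finset.mem_singleton.1 hR).trans (Finset.mem_singleton.1 hR').symm) hne
  have hstep : ∑ v ∈ chainsOn (boxes ℓ G (Dl c Ω)) (fun _ => ⊥), (-1) ^ (v.card + 1) *
      ∑ α ∈ charsOf v, F v α =
      ∑ v ∈ chainsOn (boxes ℓ G (Dl c Ω)) (fun _ => ⊥), (-1) ^ (v.card + 1) *
      ∑ α ∈ (charsOf v).filter (fun α => ¬ ∃ j, PosL ℓ M (α j)), F v α := by
    simp_rw [hsplit, mul_add]
    rw [Finset.sum_add_distrib]
    simp only [hF] at hmarks ⊢
    rw [hmarks, zero_add]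
  rw [hstep, Finset.sum_eq_single_of_mem _ hmemtriv]
  · have hcard : (triv G (Dl c Ω)).card = 1 := Finset.card_singleton _
    rw [hcard]
    have hset : dzFun ℓ M G (Dl c Ω) =
        (((charsOf (triv G (Dl c Ω))).filter (fun α => ¬ ∃ j, PosL ℓ M (α j)) : Finset _) :
          Set (Dl c Ω → G → ℂ)) := by
      ext α
      rw [Finset.mem_coe, Finset.mem_filter, mem_charsOf, isChars_triv]
      constructor
      · intro h
        refine ⟨fun j => (h j).1, ?_⟩
        rintro ⟨j, χ', hχ', hLD, hlab⟩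
        obtain ⟨g, hg, hg'⟩ := hp4 (α j) (h j).1 (h j).2
        apply hg'
        rw [hlab]
        exact hp3 χ' hχ' hLD g hg
      · rintro ⟨h1, h2⟩ j
        exact ⟨h1 j, fun h => h2 ⟨j, α j, h1 j, h, rfl⟩⟩
    rw [hset, finsum_mem_coe_finset, Finset.mul_sum, Finset.mul_sum]
    apply Finset.sum_congr rfl
    intro α _
    simp only [hF]
    have hprod : (∏ j : Dl c Ω, (Nat.card (colStab (triv G (Dl c Ω)) j) : ℤ)) =
        (Nat.card G : ℤ) ^ Nat.card (Dl c Ω) := by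
      simp_rw [colStab_triv, Subgroup.card_top]
      rw [Finset.prod_const, Finset.card_univ, ← Nat.card_eq_fintype_card]
    rw [hprod]
    simp only [GoodC, hι]
    ring
  · intro v hv hne
    apply mul_eq_zero_of_right
    apply Finset.sum_eq_zero
    intro α hα
    obtain ⟨h1, h2⟩ := Finset.mem_filter.1 hα
    exact absurd (htriv v hv α h1 h2) hne

end inner

section final

/-- `|G|/χ(1)` is an algebraic integer -/
theorem codeg_int {X : Type} [Group X] [Finite X] {χ : X → ℂ} (hχ : χ ∈ Irr X) :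
    IsIntegral ℤ ((Nat.card X : ℂ) / χ 1) := by
  classical
  have := Fintype.ofFinite X
  have := Fintype.ofFinite (ConjClasses X)
  rw [Nat.card_eq_fintype_card, codeg_eq hχ]
  apply IsIntegral.sum
  intro K _
  exact (omega_integral _ hχ _).mul (irr_integral hχ _)

/-- all blocks of positive defect satisfy the conjecture at `ℓ` -/
def Q1For (ℓ : ℕ) (M : Ideal (integralClosure ℤ ℂ)) (X : Type) [Group X] : Prop :=
  ∀ χ ∈ Irr X, LargeDefect ℓ M χ → altSum ℓ M χ = 0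

theorem psubIn_top {ℓ : ℕ} {X : Type} [Group X] [Finite X] (h : opCore ℓ X = ⊥) :
    psubIn ℓ (⊤ : Subgroup X) = psub ℓ X := by
  ext D
  rw [mem_psubIn, mem_psub, h]
  constructor
  · intro h'; exact ⟨bot_le, h'.2⟩
  · intro h'; exact ⟨le_top, h'.2⟩

theorem sum0_eq {ℓ : ℕ} (M : Ideal (integralClosure ℤ ℂ)) {X : Type} [Group X] [Finite X]
    (h : opCore ℓ X = ⊥) (μ : X → ℂ) :
    sum0 ℓ M μ = (Nat.card X : ℤ) * altSum ℓ M μ := by
  unfold sum0
  rw [card_mul_altSum, psubIn_top h, h]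

theorem sum0_zero (htz : TZeroStmt) {ℓ : ℕ} [Fact ℓ.Prime] (M : Ideal (integralClosure ℤ ℂ))
    {X : Type} [Group X] [Finite X] (h : opCore ℓ X ≠ ⊥) (μ : X → ℂ) :
    sum0 ℓ M μ = 0 := by
  classical
  have hcent : cent (⊤ : Subgroup X) {(⊥ : Subgroup X)} = ⊤ := by
    rw [eq_top_iff]
    intro x _
    unfold cent
    rw [Subgroup.mem_inf]
    refine ⟨Subgroup.mem_top x, ?_⟩
    simp only [Finset.mem_singleton, iInf_iInf_eq_left]
    rw [Subgroup.mem_centralizer_iff]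
    intro y hy
    rw [Subgroup.mem_bot.1 hy, one_mul, mul_one]
  have hstab : stab ({(⊥ : Subgroup X)} : Finset (Subgroup X)) = ⊤ := by
    rw [eq_top_iff]
    intro x _
    rw [mem_stab]
    intro D hD
    rw [Finset.mem_singleton.1 hD]
    ext y
    rw [mem_conjS, Subgroup.mem_bot, Subgroup.mem_bot]
    constructor
    · intro hy
      have : y = x * (x⁻¹ * y * x) * x⁻¹ := by group
      rw [this, hy]; group
    · rintro rfl; group
  have hne : opCore ℓ (cent (⊤ : Subgroup X) {(⊥ : Subgroup X)}) ≠ ⊥ := by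
    rw [hcent]
    intro h'
    apply h
    have := opCore_equiv ℓ (Subgroup.topEquiv : (⊤ : Subgroup X) ≃* X)
    rw [h', mapE_apply, Subgroup.map_bot] at this
    exact this.symm
  have h1 := htz ℓ X (⊤ : Subgroup X) (by infer_instance) (fun H => (Nat.card H : ℤ) *
    ((IrrBlock M H.subtype μ).ncard : ℤ)) {(⊥ : Subgroup X)} hne
  unfold tsum at h1
  rw [hcent, hstab] at h1
  rw [← h1]
  unfold sum0
  apply Finset.sum_congr rfl
  intro v _
  rw [top_inf_eq]
  unfold weight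
  push_cast
  rfl

section

variable {G Ω L : Type} [Group G] [Finite G] [Fintype Ω] [Group L] [Finite L] [MulAction L Ω]

omit [Group G] [Finite G] [Group L] [Finite L] [MulAction L Ω] in
theorem card_wreath [Finite G] [Finite L] :
    Nat.card (Wreath G Ω L) = Nat.card G ^ Nat.card Ω * Nat.card L := by
  rw [Nat.card_congr (Wreath.equivProd G Ω L), Nat.card_prod, Nat.card_fun]

theorem altB (hcr : ChainRedStmt) (htr : TransStmt) (hbx : BoxStmt) (hct : CountStmt)
    (hfm : FormStmt) (hmz : MZeroStmt) (hmk : MarksStmt) (hlb : LabelStmt) (hps : PosStmt)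
    (hls : LabSumStmt) (hdn : DznStmt) (hl2 : Lambda2Stmt) (hsc : SumcStmt) (hrs : ResumStmt)
    (ℓ : ℕ) [Fact ℓ.Prime] (M : Ideal (integralClosure ℤ ℂ)) [M.IsMaximal]
    (hℓ : (ℓ : integralClosure ℤ ℂ) ∈ M) (hG : opCore ℓ G = ⊥)
    (hΓ : opCore ℓ (Wreath G Ω L) = ⊥)
    (hQ : ∀ χ ∈ Irr G, LargeDefect ℓ M χ → altSum ℓ M χ = 0)
    (χ : Wreath G Ω L → ℂ) (αs : Ω → G → ℂ) (μ : L → ℂ) (hχ : χ ∈ Irr (Wreath G Ω L))
    (hαs : ∀ i, αs i ∈ DZ ℓ M G) (hμ : μ ∈ IrrS (LL L αs))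
    (hval : ∀ Φ : Wreath G Ω L → ℂ, (∀ x y, Φ (y * x * y⁻¹) = Φ x) →
      val Φ χ = val Φ (et αs μ)) :
    (Nat.card (LL L αs) : ℤ) * altSum ℓ M χ = sum0 ℓ M (resT (LL L αs) μ) := by
  classical
  have hcard : ((Nat.card (Wreath G Ω L) : ℤ)) ≠ 0 := by exact_mod_cast Nat.card_pos.ne'
  apply mul_left_cancel₀ hcard
  have h1 : (Nat.card (Wreath G Ω L) : ℤ) * altSum ℓ M χ = (Nat.card G : ℤ) ^ Nat.card Ω *
      ∑ c ∈ chainsOn (psubIn ℓ (⊤ : Subgroup L)) ⊥, (-1) ^ (c.card + 1) *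
        ∑ᶠ (α : Dl c Ω → G → ℂ) (_ : α ∈ dzFun ℓ M G (Dl c Ω)),
          (Nat.card (LL (stab c) α) : ℤ) *
            (({lam | lam ∈ IrrS (LL (stab c) α) ∧ GoodC M c χ α lam}.ncard : ℕ) : ℤ) := by
    rw [card_mul_altSum, hΓ]
    have hw : ∀ d : Finset (Subgroup (Wreath G Ω L)), (weight M χ d : ℤ) = wt M χ (stab d) := by
      intro d
      simp only [weight, wt]
      push_cast
      rfl
    simp_rw [hw]
    have hN : (Wreath.base : (Ω → G) →* Wreath G Ω L).range.Normal := by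
      refine ⟨?_⟩
      intro x hx g
      rw [Wreath.mem_base_range] at hx ⊢
      rw [Wreath.conj_s, hx, mul_one, mul_inv_cancel]
    rw [hcr ℓ (Wreath G Ω L) _ hN hΓ (wt M χ)]
    exact hsc ℓ G Ω L (wt M χ) (wt_conj M χ) hΓ _ (fun c hc =>
      rsum htr hbx hct hfm hmz hmk hlb hps hls hdn hl2 ℓ M hℓ hG hQ χ c hc)
  have h2 := hrs ℓ M hℓ G hG Ω L χ αs μ hχ hαs hμ hval
  calc (Nat.card (Wreath G Ω L) : ℤ) * ((Nat.card (LL L αs) : ℤ) * altSum ℓ M χ)
      = (Nat.card (LL L αs) : ℤ) * ((Nat.card (Wreath G Ω L) : ℤ) * altSum ℓ M χ) := by ring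
    _ = (Nat.card G : ℤ) ^ Nat.card Ω * ((Nat.card L : ℤ) *
          sum0 ℓ M (resT (LL L αs) μ)) := by rw [h1, ← h2]; ring
    _ = _ := by rw [card_wreath]; push_cast; ring

/-- defects -/
theorem red_codeg (hps : PosStmt) (ℓ : ℕ) [Fact ℓ.Prime] (M : Ideal (integralClosure ℤ ℂ))
    [M.IsMaximal] (hℓ : (ℓ : integralClosure ℤ ℂ) ∈ M) (hG : opCore ℓ G = ⊥)
    (χ : Wreath G Ω L → ℂ) (αs : Ω → G → ℂ) (μ : L → ℂ) (hχ : χ ∈ Irr (Wreath G Ω L))
    (hαs : ∀ i, αs i ∈ DZ ℓ M G) (hμ : μ ∈ IrrS (LL L αs))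
    (hdeg : χ 1 * (Nat.card (LL L αs) : ℂ) = (Nat.card L : ℂ) * (∏ i, αs i 1) * μ 1) :
    red M ((Nat.card (Wreath G Ω L) : ℂ) / χ 1) = 0 ↔
      red M ((Nat.card (LL L αs) : ℂ) / μ 1) = 0 := by
  classical
  have h1 : (Nat.card (Wreath G Ω L) : ℂ) / χ 1 =
      uu αs * ((Nat.card (LL L αs) : ℂ) / μ 1) := by
    have hχ1 : χ 1 ≠ 0 := irr_one_ne hχ
    have hμ1 : μ 1 ≠ 0 := IrrS_one_ne hμ
    have hα1 : ∀ i, αs i 1 ≠ 0 := fun i => irr_one_ne (hαs i).1
    have hp : (∏ i, αs i 1) ≠ 0 := Finset.prod_ne_zero_iff.2 fun i _ => hα1 i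
    have hLL : (Nat.card (LL L αs) : ℂ) ≠ 0 := by exact_mod_cast Nat.card_pos.ne'
    have huu : uu αs = (Nat.card G : ℂ) ^ Nat.card Ω / ∏ i, αs i 1 := by
      unfold uu
      rw [Finset.prod_div_distrib, Finset.prod_const, Finset.card_univ,
        ← Nat.card_eq_fintype_card]
    rw [huu, card_wreath]
    push_cast
    rw [div_mul_div_comm, div_eq_div_iff hχ1 (mul_ne_zero hp hμ1)]
    have : (Nat.card G : ℂ) ^ Nat.card Ω * (Nat.card L : ℂ) * ((∏ i, αs i 1) * μ 1) =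
        (Nat.card G : ℂ) ^ Nat.card Ω * ((Nat.card L : ℂ) * (∏ i, αs i 1) * μ 1) := by ring
    rw [this, ← hdeg]
    ring
  have hui : ∀ i ∈ (Finset.univ : Finset Ω), IsIntegral ℤ ((Nat.card G : ℂ) / αs i 1) :=
    fun i _ => codeg_int (hαs i).1
  have huI : IsIntegral ℤ (uu αs) := IsIntegral.prod _ hui
  have hμI : IsIntegral ℤ ((Nat.card (LL L αs) : ℂ) / μ 1) := by
    have := codeg_int hμ.2
    simpa using this
  rw [h1, red_mul huI hμI]
  have hu0 : red M (uu αs) ≠ 0 := by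
    unfold uu
    rw [red_prod _ _ hui, Finset.prod_ne_zero_iff]
    intro i _ h
    exact (hαs i).2 (((hps ℓ M hℓ G hG).1 (αs i) (hαs i).1).2 h)
  constructor
  · intro h
    exact (mul_eq_zero.1 h).resolve_left hu0
  · intro h
    rw [h, mul_zero]

end

/-- the stabiliser in `L` of a family of functions indexed by `Ω` -/
def famStab {G Ω : Type} (L : Type) [Group L] [MulAction L Ω] (β : Ω → G → ℂ) : Subgroup L where
  carrier := {l | ∀ i, β (l • i) = β i}
  one_mem' := by intro i; rw [one_smul]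
  mul_mem' := by
    intro a b ha hb i
    rw [mul_smul, ha, hb]
  inv_mem' := by
    intro a ha i
    rw [← ha, smul_inv_smul]

theorem LL_eq {G Ω L : Type} [Group G] [Group L] [MulAction L Ω] {β : Ω → G → ℂ}
    (hβ : ∀ i, β i ∈ Irr G) : LL L β = famStab L β := by
  ext h
  rw [mem_LL hβ]
  constructor
  · intro H i
    have := H (h • i)
    rw [inv_smul_smul] at this
    exact this.symm
  · intro H i
    have := H (h⁻¹ • i)
    rw [smul_inv_smul] at this
    exact this.symm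

/-- the statement of the main theorem, second stage -/
def MainBStmt : Prop :=
  ∀ (ℓ : ℕ) [Fact ℓ.Prime] (M : Ideal (integralClosure ℤ ℂ)) [M.IsMaximal],
    (ℓ : integralClosure ℤ ℂ) ∈ M → ∀ (G : Type) [Group G] [Finite G], Nontrivial G →
    opCore ℓ G = ⊥ → Q1For ℓ M G →
    ∀ (Ω L : Type) [Finite Ω] [Group L] [Finite L] [MulAction L Ω] [FaithfulSMul L Ω],
    opCore ℓ (Wreath G Ω L) = ⊥ ∧
    (Q1For ℓ M (Wreath G Ω L) ↔
      ∀ β : Ω → G → ℂ, (∀ i, β i ∈ DZ ℓ M G) → opCore ℓ (famStab L β) = ⊥ →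
        Q1For ℓ M (famStab L β))

theorem mainB_of (hmain : MainStmt) (hoc : OpCoreStmt) (htz : TZeroStmt)
    (hcr : ChainRedStmt) (htr : TransStmt) (hbx : BoxStmt) (hct : CountStmt)
    (hfm : FormStmt) (hmz : MZeroStmt) (hmk : MarksStmt) (hlb : LabelStmt) (hps : PosStmt)
    (hls : LabSumStmt) (hdn : DznStmt) (hl2 : Lambda2Stmt) (hsc : SumcStmt) (hrs : ResumStmt)
    (hcl : ClsStmt) : MainBStmt := by
  classical
  intro ℓ _ M _ hℓ G _ _ hnt hG hQ Ω L _ _ _ _ _
  have := Fintype.ofFinite Ω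
  have hΓ : opCore ℓ (Wreath G Ω L) = ⊥ := hoc ℓ G Ω L hnt hG
  refine ⟨hΓ, ?_⟩
  obtain ⟨hc1, hc2, hc3⟩ := hcl G Ω L
  constructor
  · intro hQΓ β hβ hU
    have hβI : ∀ i, β i ∈ Irr G := fun i => (hβ i).1
    rw [← LL_eq hβI] at hU ⊢
    intro μ hμ hLD
    obtain ⟨lam, hlam, hlamμ⟩ := exists_IrrS (LL L β) hμ
    have hres : resT (LL L β) lam = μ := funext hlamμ
    obtain ⟨χ, hχ, hval, -, hdeg⟩ := hc1 β hβI lam hlam
    have hA := altB hcr htr hbx hct hfm hmz hmk hlb hps hls hdn hl2 hsc hrs ℓ M hℓ hG hΓ hQ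
      χ β lam hχ hβ hlam hval
    have hD := red_codeg hps ℓ M hℓ hG χ β lam hχ hβ hlam hdeg
    rw [hres, sum0_eq M hU] at hA
    have hcU : ((Nat.card (LL L β) : ℤ)) ≠ 0 := by exact_mod_cast Nat.card_pos.ne'
    have hA' := mul_left_cancel₀ hcU hA
    rw [← hA']
    apply hQΓ χ hχ
    rw [(hps ℓ M hℓ _ hΓ).1 χ hχ, hD]
    have h1 : lam 1 = μ 1 := by
      have := hlamμ 1
      simpa using this
    rw [h1]
    exact ((hps ℓ M hℓ _ hU).1 μ hμ).1 hLD
  · intro hall χ hχ hLD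
    obtain ⟨β, hβ, hover⟩ := hc3 χ hχ
    by_cases hpos : ∃ i, LargeDefect ℓ M (β i)
    · exact hmain ℓ M hℓ G hG hQ Ω L χ hχ β hβ hover hpos
    · have hβD : ∀ i, β i ∈ DZ ℓ M G := fun i => ⟨hβ i, fun h => hpos ⟨i, h⟩⟩
      obtain ⟨μ, hμ, hval, hdeg⟩ := hc2 χ hχ β hβ hover
      have hA := altB hcr htr hbx hct hfm hmz hmk hlb hps hls hdn hl2 hsc hrs ℓ M hℓ hG hΓ hQ
        χ β μ hχ hβD hμ hval
      have hcU : ((Nat.card (LL L β) : ℤ)) ≠ 0 := by exact_mod_cast Nat.card_pos.ne'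
      by_cases hU : opCore ℓ (LL L β) = ⊥
      · rw [sum0_eq M hU] at hA
        rw [mul_left_cancel₀ hcU hA]
        have hD := red_codeg hps ℓ M hℓ hG χ β μ hχ hβD hμ hdeg
        rw [(hps ℓ M hℓ _ hΓ).1 χ hχ, hD] at hLD
        have hres : resT (LL L β) μ ∈ Irr (LL L β) := hμ.2
        have h1 : resT (LL L β) μ 1 = μ 1 := by simp [resT]
        have h2 := hall β hβD
        rw [← LL_eq hβ] at h2
        apply h2 hU _ hres
        rw [(hps ℓ M hℓ _ hU).1 _ hres, h1]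
        exact hLD
      · rw [sum0_zero htz M hU] at hA
        exact (mul_eq_zero.1 hA).resolve_left hcU

end final

end Pool.Agent.Helper79_WRA
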