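import Pool.Agent.Helper79_WRA.DefsB

/-!
WRA, second stage: the statements of the modules.
-/

open scoped BigOperators

noncomputable section

namespace Pool.Agent.Helper79_WRA

open Pool.Agent.Helper51_AWC

/-! ## Characters of defect zero -/

/-- DZU: a character of defect zero is alone in its block. -/
def DzuStmt : Prop :=
  ∀ (ℓ : ℕ) [Fact ℓ.Prime] (M : Ideal (integralClosure ℤ ℂ)) [M.IsMaximal],
    (ℓ : integralClosure ℤ ℂ) ∈ M → ∀ (G : Type) [Group G] [Finite G], opCore ℓ G = ⊥ →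
    ∀ ξ ∈ DZ ℓ M G, ∀ ξ' ∈ Irr G, labF M ξ = labF M ξ' → ξ = ξ'

/-- DZN: labels of characters of stabilisers of nontrivial chains vanish on classes of defect
zero. -/
def DznStmt : Prop :=
  ∀ (ℓ : ℕ) [Fact ℓ.Prime] (M : Ideal (integralClosure ℤ ℂ)) [M.IsMaximal],
    (ℓ : integralClosure ℤ ℂ) ∈ M → ∀ (G : Type) [Group G] [Finite G]
    (d : Finset (Subgroup G)), (∀ D ∈ d, IsPGroup ℓ D) →
    IsChain (· ≤ ·) (d : Set (Subgroup G)) → (∃ D ∈ d, D ≠ ⊥) → ∀ a ∈ IrrS (stab d),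
    ∀ g : G, ¬ ℓ ∣ Nat.card (Subgroup.centralizer {g} : Subgroup G) → labF M a g = 0

/-- GAL: Galois conjugation by a Frobenius element. -/
def GalStmt : Prop :=
  ∀ (ℓ : ℕ) [Fact ℓ.Prime] (M : Ideal (integralClosure ℤ ℂ)) [M.IsMaximal],
    (ℓ : integralClosure ℤ ℂ) ∈ M → ∀ (G : Type) [Group G] [Finite G],
    ∀ ξ ∈ Irr G, ∀ n : ℕ, ∃ ξ' ∈ Irr G, ξ' 1 = ξ 1 ∧
      ∀ g : G, ¬ ℓ ∣ Nat.card (Subgroup.centralizer {g} : Subgroup G) →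
        labF M ξ' g = (labF M ξ g) ^ (ℓ ^ n)

/-- DZT: Frobenius twists of characters of defect zero. -/
def DztStmt : Prop :=
  ∀ (ℓ : ℕ) [Fact ℓ.Prime] (M : Ideal (integralClosure ℤ ℂ)) [M.IsMaximal],
    (ℓ : integralClosure ℤ ℂ) ∈ M → ∀ (G : Type) [Group G] [Finite G], opCore ℓ G = ⊥ →
    ∀ ξ ∈ DZ ℓ M G, ∀ n : ℕ, ∃ ξ' ∈ DZ ℓ M G, ξ' 1 = ξ 1 ∧ IsTw ℓ M n ξ ξ'

/-- DZO: orthogonality of characters of defect zero and twists, modulo `M`. -/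
def DzoStmt : Prop :=
  ∀ (ℓ : ℕ) [Fact ℓ.Prime] (M : Ideal (integralClosure ℤ ℂ)) [M.IsMaximal],
    (ℓ : integralClosure ℤ ℂ) ∈ M → ∀ (G : Type) [Group G] [Finite G], opCore ℓ G = ⊥ →
    ∀ n : ℕ, ∀ ξ ∈ DZ ℓ M G, ∀ ξ' ∈ DZ ℓ M G, ∀ η ∈ DZ ℓ M G, IsTw ℓ M n ξ ξ' →
      IsIntegral ℤ (val (fun y => (η y⁻¹) ^ (ℓ ^ n)) ξ') ∧
      (η = ξ → red M (val (fun y => (η y⁻¹) ^ (ℓ ^ n)) ξ') =
        (red M ((Nat.card G : ℂ) / ξ 1)) ^ (ℓ ^ n)) ∧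
      (η ≠ ξ → red M (val (fun y => (η y⁻¹) ^ (ℓ ^ n)) ξ') = 0)

/-- VPOW: values of characters at powers. -/
def VpowStmt : Prop :=
  ∀ (ℓ : ℕ) [Fact ℓ.Prime] (M : Ideal (integralClosure ℤ ℂ)) [M.IsMaximal],
    (ℓ : integralClosure ℤ ℂ) ∈ M → ∀ (G : Type) [Group G] [Finite G],
    ∀ χ ∈ Irr G, ∀ (y : G) (n : ℕ), red M (χ (y ^ (ℓ ^ n))) = (red M (χ y)) ^ (ℓ ^ n)

/-! ## Clifford theory for the wreath product -/

/-- EQV: equivariance of the extensions and of the test functions. -/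
def EqvStmt : Prop :=
  ∀ (G Ω L : Type) [Group G] [Finite G] [Fintype Ω] [Group L] [Finite L] [MulAction L Ω]
    (β : Ω → G → ℂ), (∀ i, β i ∈ Irr G) →
    (∀ x y : Wreath G Ω L, ex L (tr y.s β) (y * x * y⁻¹) = ex L β x) ∧
    (∀ h₀ ∈ LL L β, (∀ x y, testT β h₀ (y * x * y⁻¹) = testT β h₀ x) ∧
      (∀ x, IsIntegral ℤ (testT β h₀ x)) ∧
      ∀ l : L, testT (tr l β) (l * h₀ * l⁻¹) = testT β h₀) ∧
    (∀ lam ∈ IrrS (LL L β), ∀ l : L, (fun x => lam (l⁻¹ * x * l)) ∈ IrrS (LL L (tr l β)) ∧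
      ∀ Φ : Wreath G Ω L → ℂ, (∀ x y, Φ (y * x * y⁻¹) = Φ x) →
        val Φ (et (tr l β) (fun x => lam (l⁻¹ * x * l))) = val Φ (et β lam))

/-- CLS: classification of the irreducible characters of the wreath product. -/
def ClsStmt : Prop :=
  ∀ (G Ω L : Type) [Group G] [Finite G] [Fintype Ω] [Group L] [Finite L] [MulAction L Ω],
    (∀ β : Ω → G → ℂ, (∀ i, β i ∈ Irr G) → ∀ lam ∈ IrrS (LL L β),
      ∃ χ ∈ Irr (Wreath G Ω L), (∀ Φ : Wreath G Ω L → ℂ, (∀ x y, Φ (y * x * y⁻¹) = Φ x) →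
        val Φ χ = val Φ (et β lam)) ∧ LiesOver χ β ∧
        χ 1 * (Nat.card (LL L β) : ℂ) = (Nat.card L : ℂ) * (∏ i, β i 1) * lam 1) ∧
    (∀ χ ∈ Irr (Wreath G Ω L), ∀ β : Ω → G → ℂ, (∀ i, β i ∈ Irr G) → LiesOver χ β →
      ∃ lam ∈ IrrS (LL L β), (∀ Φ : Wreath G Ω L → ℂ, (∀ x y, Φ (y * x * y⁻¹) = Φ x) →
        val Φ χ = val Φ (et β lam)) ∧
        χ 1 * (Nat.card (LL L β) : ℂ) = (Nat.card L : ℂ) * (∏ i, β i 1) * lam 1) ∧
    (∀ χ ∈ Irr (Wreath G Ω L), ∃ β : Ω → G → ℂ, (∀ i, β i ∈ Irr G) ∧ LiesOver χ β)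

/-- AFORM: the values depend only on the label of the character of the top group. -/
def AformStmt : Prop :=
  ∀ (G Δ K : Type) [Group G] [Finite G] [Fintype Δ] [Group K] [Finite K] [MulAction K Δ]
    (M : Ideal (integralClosure ℤ ℂ)) (v : Finset (Δ → Subgroup G)) (α : Δ → G → ℂ),
    IsChars v α → ∀ lam ∈ IrrS (topSt K v α), ∀ lam' ∈ IrrS (topSt K v α),
    (∀ h ∈ topSt K v α, Cong M (ulab (topSt K v α) lam h) (ulab (topSt K v α) lam' h)) →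
    ∀ Φ : Wreath G Δ K → ℂ, (∀ x y, Φ (y * x * y⁻¹) = Φ x) → (∀ x, IsIntegral ℤ (Φ x)) →
    Cong M (val Φ (eta v α lam)) (val Φ (eta v α lam'))

/-- FORMI: integrality of the inner sums for functions invariant under the base group. -/
def FormiStmt : Prop :=
  ∀ (G Δ K : Type) [Group G] [Finite G] [Fintype Δ] [Group K] [Finite K] [MulAction K Δ]
    (M : Ideal (integralClosure ℤ ℂ)) (v : Finset (Δ → Subgroup G)) (α : Δ → G → ℂ),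
    IsChars v α → ∀ h ∈ topSt K v α, ∀ Φ : Wreath G Δ K → ℂ,
    (∀ x (a : Δ → G), Φ (Wreath.base a * x * (Wreath.base a)⁻¹) = Φ x) →
    ((∀ x, IsIntegral ℤ (Φ x)) →
      IsIntegral ℤ ((∑ᶠ w : Δ → G, Φ ⟨w, h⟩ * ext K v α ⟨w, h⟩) / ∏ j, α j 1)) ∧
    ((∀ x, Cong M (Φ x) 0) →
      Cong M ((∑ᶠ w : Δ → G, Φ ⟨w, h⟩ * ext K v α ⟨w, h⟩) / ∏ j, α j 1) 0)

/-! ## Tests -/

open Classical in
/-- RESTR: for a character of the stabiliser of a chain, only the centraliser of the chain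
matters modulo `M`. -/
def RestrStmt : Prop :=
  ∀ (ℓ : ℕ) [Fact ℓ.Prime] (M : Ideal (integralClosure ℤ ℂ)) [M.IsMaximal],
    (ℓ : integralClosure ℤ ℂ) ∈ M → ∀ (X : Type) [Group X] [Finite X]
    (d : Finset (Subgroup X)), (∀ D ∈ d, IsPGroup ℓ D) →
    IsChain (· ≤ ·) (d : Set (Subgroup X)) → ∀ a ∈ IrrS (stab d), ∀ Φ : X → ℂ,
    (∀ x y, Φ (y * x * y⁻¹) = Φ x) → (∀ x, IsIntegral ℤ (Φ x)) →
    Cong M (val Φ a) (val (fun x => if ∀ D ∈ d, ∀ y ∈ D, y * x = x * y then Φ x else 0) a)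

/-- the situation of the tests: `ι : G wr_Δ K → G wr_Ω L`, the fibres of `q` are the orbits of the
`ℓ`-subgroup `P` of `L`, normalised by `K` -/
structure Sit (ℓ : ℕ) {G Ω L Δ K : Type} [Group G] [Group L] [MulAction L Ω] [Group K]
    [MulAction K Δ] (q : Ω → Δ) (κ : K →* L) (ι : Wreath G Δ K →* Wreath G Ω L)
    (P : Subgroup L) : Prop where
  pgroup : IsPGroup ℓ P
  iota : ∀ x, ι x = ⟨fun i => x.f (q i), κ x.s⟩
  surj : Function.Surjective q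
  inj : Function.Injective κ
  compat : ∀ k i, q (κ k • i) = k • q i
  fib : ∀ i i', q i = q i' ↔ ∃ p ∈ P, p • i = i'
  norm : ∀ k, conjS (κ k) P = P

/-- `α` is the family of twists of `β` -/
structure TwPair (ℓ : ℕ) (M : Ideal (integralClosure ℤ ℂ)) {G Ω Δ : Type} [Group G] [Finite G]
    (q : Ω → Δ) (β : Ω → G → ℂ) (α : Δ → G → ℂ) : Prop where
  dz : ∀ i, β i ∈ DZ ℓ M G
  dz' : ∀ j, α j ∈ DZ ℓ M G
  fib : ∀ i i', q i = q i' → β i = β i'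
  tw : ∀ i n, Nat.card {i' // q i' = q i} = ℓ ^ n → IsTw ℓ M n (β i) (α (q i))
  deg : ∀ i, α (q i) 1 = β i 1

/-- the inner sums of the tests -/
def EE {G Ω L Δ K : Type} [Group G] [Group L] [MulAction L Ω] [Group K] [MulAction K Δ]
    [Fintype Ω] [Fintype Δ] (ι : Wreath G Δ K →* Wreath G Ω L) (β' : Ω → G → ℂ)
    (α : Δ → G → ℂ) (h : K) : ℂ :=
  (∑ᶠ w : Δ → G, ex L β' (ι ⟨w, h⟩)⁻¹ * ex K α ⟨w, h⟩) / ∏ j, α j 1

/-- TESTE: evaluation of the inner sum for families fixed by `P`. -/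
def TesteStmt : Prop :=
  ∀ (ℓ : ℕ) [Fact ℓ.Prime] (M : Ideal (integralClosure ℤ ℂ)) [M.IsMaximal],
    (ℓ : integralClosure ℤ ℂ) ∈ M → ∀ (G : Type) [Group G] [Finite G], opCore ℓ G = ⊥ →
    ∀ (Ω L Δ K : Type) [Fintype Ω] [Group L] [Finite L] [MulAction L Ω] [Fintype Δ] [Group K]
    [Finite K] [MulAction K Δ] (q : Ω → Δ) (κ : K →* L) (ι : Wreath G Δ K →* Wreath G Ω L)
    (P : Subgroup L) (β : Ω → G → ℂ) (α : Δ → G → ℂ), Sit ℓ q κ ι P → TwPair ℓ M q β α →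
    ∀ h ∈ LL K α, (∀ p ∈ P, p * κ h = κ h * p) → ∀ β' : Ω → G → ℂ,
    (∀ i, β' i ∈ DZ ℓ M G) → (∀ i i', q i = q i' → β' i = β' i') → κ h ∈ LL L β' →
    (β' = β → Cong M (EE ι β' α h) (uu β)) ∧ (β' ≠ β → Cong M (EE ι β' α h) 0)

/-- TEST: evaluation of the tests. -/
def TestStmt : Prop :=
  ∀ (ℓ : ℕ) [Fact ℓ.Prime] (M : Ideal (integralClosure ℤ ℂ)) [M.IsMaximal],
    (ℓ : integralClosure ℤ ℂ) ∈ M → ∀ (G : Type) [Group G] [Finite G], opCore ℓ G = ⊥ →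
    ∀ (Ω L Δ K : Type) [Fintype Ω] [Group L] [Finite L] [MulAction L Ω] [Fintype Δ] [Group K]
    [Finite K] [MulAction K Δ] (q : Ω → Δ) (κ : K →* L) (ι : Wreath G Δ K →* Wreath G Ω L)
    (P : Subgroup L) (β : Ω → G → ℂ) (α : Δ → G → ℂ), Sit ℓ q κ ι P → TwPair ℓ M q β α →
    ∀ lam ∈ IrrS (LL K α),
    -- the conclusion of RESTR
    (∀ Φ : Wreath G Ω L → ℂ, (∀ x y, Φ (y * x * y⁻¹) = Φ x) → (∀ x, IsIntegral ℤ (Φ x)) →
      ∀ Ψ : Wreath G Δ K → ℂ, (∀ t, (∀ p ∈ P, p * κ t.s = κ t.s * p) → Ψ t = Φ (ι t)) →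
        (∀ t, ¬ (∀ p ∈ P, p * κ t.s = κ t.s * p) → Ψ t = 0) →
        Cong M (val (fun t => Φ (ι t)) (et α lam)) (val Ψ (et α lam))) →
    (∀ β₀ : Ω → G → ℂ, (∀ i, β₀ i ∈ DZ ℓ M G) → (∀ l : L, tr l β ≠ β₀) → ∀ h₀ ∈ LL L β₀,
      Cong M (val (fun t => testT β₀ h₀ (ι t)) (et α lam)) 0) ∧
    (∀ h₀ ∈ LL L β, Cong M (val (fun t => testT β h₀ (ι t)) (et α lam))
      (uu β * ((∑ᶠ (k : K) (_ : (∀ p ∈ P, p * κ k = κ k * p) ∧
        ∃ u ∈ LL L β, κ k = u * h₀ * u⁻¹), lam k) / lam 1)))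

/-! ## Chains of subgroups of the top group -/

/-- LAMBDA2: the stabiliser of a chain of the top group, explicitly. -/
def Lambda2Stmt : Prop :=
  ∀ (ℓ : ℕ) [Fact ℓ.Prime] (G Ω L : Type) [Group G] [Finite G] [Finite Ω] [Group L] [Finite L]
    [MulAction L Ω] (c : Finset (Subgroup L)),
    (∀ D ∈ c, IsPGroup ℓ D) → c.Nonempty → IsChain (· ≤ ·) (c : Set (Subgroup L)) →
    topP c ∈ c ∧ (∀ D ∈ c, D ≤ topP c) ∧ Function.Injective (iota c G Ω) ∧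
    (∀ D ∈ topc c G Ω, IsPGroup ℓ D) ∧
    IsChain (· ≤ ·) ((topc c G Ω : Finset _) : Set (Subgroup (Wreath G Ω L))) ∧
    (iota c G Ω).range = stab (topc c G Ω) ∧
    cent (Wreath.base : (Ω → G) →* Wreath G Ω L).range (topc c G Ω) =
      ((iota c G Ω).comp (Wreath.base : (Dl c Ω → G) →* Wreath G (Dl c Ω) (stab c))).range ∧
    Sit ℓ (qq c : Ω → Dl c Ω) (stab c).subtype (iota c G Ω) (topP c) ∧
    (∀ j : Dl c Ω, ∃ n, Nat.card {i : Ω // qq c i = j} = ℓ ^ n)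

open Classical in
/-- SUMC: the sum over the chains meeting the base group trivially, in terms of chains of the top
group. -/
def SumcStmt : Prop :=
  ∀ (ℓ : ℕ) [Fact ℓ.Prime] (G Ω L : Type) [Group G] [Finite G] [Finite Ω] [Group L] [Finite L]
    [MulAction L Ω] (w : Subgroup (Wreath G Ω L) → ℤ), (∀ g H, w (conjS g H) = w H) →
    opCore ℓ (Wreath G Ω L) = ⊥ →
    ∀ r : Finset (Subgroup L) → ℤ,
    (∀ c ∈ chainsOn (psubIn ℓ (⊤ : Subgroup L)) ⊥,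
      tsum ℓ (Wreath.base : (Ω → G) →* Wreath G Ω L).range w (topc c G Ω) =
        (Nat.card G : ℤ) ^ Nat.card (Dl c Ω) * r c) →
    ∑ c ∈ (chainsOn (psub ℓ (Wreath G Ω L)) ⊥).filter
        (fun c => ∀ D ∈ c, D ⊓ (Wreath.base : (Ω → G) →* Wreath G Ω L).range = ⊥),
      (-1) ^ (c.card + 1) * tsum ℓ (Wreath.base : (Ω → G) →* Wreath G Ω L).range w c =
      (Nat.card G : ℤ) ^ Nat.card Ω *
        ∑ c ∈ chainsOn (psubIn ℓ (⊤ : Subgroup L)) ⊥, (-1) ^ (c.card + 1) * r c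

/-! ## Matching of blocks -/

/-- the block condition for the chain `c` -/
def GoodC {G Ω L : Type} [Group G] [Fintype Ω] [Group L] [Finite L] [MulAction L Ω]
    (M : Ideal (integralClosure ℤ ℂ)) (c : Finset (Subgroup L)) (χ : Wreath G Ω L → ℂ)
    (α : Dl c Ω → G → ℂ) (lam : stab c → ℂ) : Prop :=
  Good M (clas (iota c G Ω)) (fun g => omega (MonoidHom.id _) χ g) (et α lam)

/-- the label condition in the top group -/
def LabC {L : Type} [Group L] (M : Ideal (integralClosure ℤ ℂ)) (c : Finset (Subgroup L))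
    (U : Subgroup L) (lam : stab c → ℂ) (μ : L → ℂ) : Prop :=
  ∀ h ∈ U, Cong M ((∑ᶠ (k : stab c) (_ : ∃ u ∈ U, (k : L) = u * h * u⁻¹), lam k) / lam 1)
    (ulab U μ h)

/-- BMA: matching of blocks, first half. -/
def BmaStmt : Prop :=
  ∀ (ℓ : ℕ) [Fact ℓ.Prime] (M : Ideal (integralClosure ℤ ℂ)) [M.IsMaximal],
    (ℓ : integralClosure ℤ ℂ) ∈ M → ∀ (G : Type) [Group G] [Finite G], opCore ℓ G = ⊥ →
    ∀ (Ω L : Type) [Fintype Ω] [Group L] [Finite L] [MulAction L Ω]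
    (χ : Wreath G Ω L → ℂ) (αs : Ω → G → ℂ) (μ : L → ℂ), χ ∈ Irr (Wreath G Ω L) →
    (∀ i, αs i ∈ DZ ℓ M G) → μ ∈ IrrS (LL L αs) →
    (∀ Φ : Wreath G Ω L → ℂ, (∀ x y, Φ (y * x * y⁻¹) = Φ x) → val Φ χ = val Φ (et αs μ)) →
    ∀ c ∈ chainsOn (psubIn ℓ (⊤ : Subgroup L)) ⊥, ∀ (β : Ω → G → ℂ) (α : Dl c Ω → G → ℂ),
    TwPair ℓ M (qq c) β α → ∀ lam ∈ IrrS (LL (stab c) α), GoodC M c χ α lam →
    (∃ l : L, β = tr l αs) ∧
      ∀ l : L, β = tr l αs → LabC M c (LL L β) lam (fun x => μ (l⁻¹ * x * l))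

/-- BMB: matching of blocks, second half. -/
def BmbStmt : Prop :=
  ∀ (ℓ : ℕ) [Fact ℓ.Prime] (M : Ideal (integralClosure ℤ ℂ)) [M.IsMaximal],
    (ℓ : integralClosure ℤ ℂ) ∈ M → ∀ (G : Type) [Group G] [Finite G], opCore ℓ G = ⊥ →
    ∀ (Ω L : Type) [Fintype Ω] [Group L] [Finite L] [MulAction L Ω]
    (χ : Wreath G Ω L → ℂ) (αs : Ω → G → ℂ) (μ : L → ℂ), χ ∈ Irr (Wreath G Ω L) →
    (∀ i, αs i ∈ DZ ℓ M G) → μ ∈ IrrS (LL L αs) →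
    (∀ Φ : Wreath G Ω L → ℂ, (∀ x y, Φ (y * x * y⁻¹) = Φ x) → val Φ χ = val Φ (et αs μ)) →
    ∀ c ∈ chainsOn (psubIn ℓ (⊤ : Subgroup L)) ⊥, ∀ (β : Ω → G → ℂ) (α : Dl c Ω → G → ℂ),
    TwPair ℓ M (qq c) β α → ∀ lam ∈ IrrS (LL (stab c) α), ∀ l : L, β = tr l αs →
    LabC M c (LL L β) lam (fun x => μ (l⁻¹ * x * l)) → GoodC M c χ α lam

open Classical in
/-- RES1: the number of characters satisfying the label condition is a weight of the stabiliser of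
`αs`. -/
def Res1Stmt : Prop :=
  ∀ (ℓ : ℕ) [Fact ℓ.Prime] (M : Ideal (integralClosure ℤ ℂ)) [M.IsMaximal],
    (ℓ : integralClosure ℤ ℂ) ∈ M → ∀ (G : Type) [Group G] [Finite G], opCore ℓ G = ⊥ →
    ∀ (Ω L : Type) [Fintype Ω] [Group L] [Finite L] [MulAction L Ω]
    (αs : Ω → G → ℂ) (μ : L → ℂ), (∀ i, αs i ∈ DZ ℓ M G) → μ ∈ IrrS (LL L αs) →
    ∀ c ∈ chainsOn (psubIn ℓ (⊤ : Subgroup L)) ⊥, ∀ (β : Ω → G → ℂ) (α : Dl c Ω → G → ℂ),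
    TwPair ℓ M (qq c) β α → ∀ l : L, β = tr l αs →
    Nat.card (LL (stab c) α) * {lam | lam ∈ IrrS (LL (stab c) α) ∧
      LabC M c (LL L β) lam (fun x => μ (l⁻¹ * x * l))}.ncard =
      weight M (resT (LL L αs) μ) (inU (LL L αs) (c.image (conjS l⁻¹)))

/-- the functions with values in the characters of defect zero -/
def dzFun (ℓ : ℕ) (M : Ideal (integralClosure ℤ ℂ)) (G Δ : Type) [Group G] [Finite G] :
    Set (Δ → G → ℂ) := {α | ∀ j, α j ∈ DZ ℓ M G}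

/-- RESUM: resummation over the families of characters of defect zero. -/
def ResumStmt : Prop :=
  ∀ (ℓ : ℕ) [Fact ℓ.Prime] (M : Ideal (integralClosure ℤ ℂ)) [M.IsMaximal],
    (ℓ : integralClosure ℤ ℂ) ∈ M → ∀ (G : Type) [Group G] [Finite G], opCore ℓ G = ⊥ →
    ∀ (Ω L : Type) [Fintype Ω] [Group L] [Finite L] [MulAction L Ω]
    (χ : Wreath G Ω L → ℂ) (αs : Ω → G → ℂ) (μ : L → ℂ), χ ∈ Irr (Wreath G Ω L) →
    (∀ i, αs i ∈ DZ ℓ M G) → μ ∈ IrrS (LL L αs) →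
    (∀ Φ : Wreath G Ω L → ℂ, (∀ x y, Φ (y * x * y⁻¹) = Φ x) → val Φ χ = val Φ (et αs μ)) →
    (Nat.card (LL L αs) : ℤ) * ∑ c ∈ chainsOn (psubIn ℓ (⊤ : Subgroup L)) ⊥,
        (-1) ^ (c.card + 1) * ∑ᶠ (α : Dl c Ω → G → ℂ) (_ : α ∈ dzFun ℓ M G (Dl c Ω)),
          (Nat.card (LL (stab c) α) : ℤ) *
            (({lam | lam ∈ IrrS (LL (stab c) α) ∧ GoodC M c χ α lam}.ncard : ℕ) : ℤ) =
      (Nat.card L : ℤ) * sum0 ℓ M (resT (LL L αs) μ)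

end Pool.Agent.Helper79_WRA
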