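import Pool.Agent.Helper79_WRA.Tower
import Pool.Agent.Helper13_WRA.Count
import Pool.Agent.Helper13_WRA.Form
import Pool.Agent.Helper13_WRA.Label
import Pool.Agent.Helper15_WRA.Afb
import Pool.Agent.Helper15_WRA.Gal
import Pool.Agent.Helper15_WRA.Test
import Pool.Agent.Helper33_WRA.Ext
import Pool.Agent.Helper33_WRA.Formi
import Pool.Agent.Helper33_WRA.Teste
import Pool.Agent.Helper36_WRA.Lambda2
import Pool.Agent.Helper36_WRA.Sumc
import Pool.Agent.Helper40_WRA.Aform
import Pool.Agent.Helper40_WRA.Cls
import Pool.Agent.Helper44_WRA.Cliff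
import Pool.Agent.Helper44_WRA.Kill
import Pool.Agent.Helper45_WRA.OpCore
import Pool.Agent.Helper46_WRA.Afc
import Pool.Agent.Helper46_WRA.Res1
import Pool.Agent.Helper46_WRA.Resum
import Pool.Agent.Helper46_WRA.Tzero
import Pool.Agent.Helper47_WRA.Dzt
import Pool.Agent.Helper47_WRA.Restr
import Pool.Agent.Helper48_WRA.Dzu
import Pool.Agent.Helper59_WRA.Afa
import Pool.Agent.Helper59_WRA.Bmb
import Pool.Agent.Helper62_WRA.Bma
import Pool.Agent.Helper62_WRA.Dzdet
import Pool.Agent.Helper62_WRA.Mzero
import Pool.Agent.Helper69_WRA.Alg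
import Pool.Agent.Helper69_WRA.Marks
import Pool.Agent.Helper75_WRA.Box
import Pool.Agent.Helper75_WRA.Lam
import Pool.Agent.Helper75_WRA.Trans
import Pool.Agent.Helper75_WRA.Twist
import Pool.Agent.Helper83_WRA.LabSum
import Pool.Agent.Helper83_WRA.Pos
import Pool.Agent.Helper83_WRA.Tconj
import Pool.Agent.Helper91_WRA.Inter
import Pool.Agent.Helper91_WRA.ChainRed
import Pool.Agent.Helper97_WRA.Eqv

/-!
WRA: everything together.
-/

open scoped BigOperators

noncomputable section

namespace Pool.Agent.Helper79_WRA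

open Pool.Agent.Helper51_AWC

theorem extAll : ExtStmt := H33.ext_
theorem eqvAll : EqvStmt := H97.eqv extAll
theorem clsAll : ClsStmt := H40.cls extAll H44.cliff eqvAll
theorem labelAll : LabelStmt := H13.label H44.br H69.alg
theorem dzuAll : DzuStmt := H48.dzu H83.pos
theorem tzeroAll : TZeroStmt := H46.tzero H91.cone
theorem restrAll : RestrStmt := H47.restr labelAll H44.kill
theorem dztAll : DztStmt := H47.dzt H69.alg H15.gal H83.pos
theorem testAll : TestStmt := H15.test extAll eqvAll H33.formi dzuAll (H33.teste dzuAll)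
theorem bmaAll : BmaStmt := H62.bma testAll eqvAll restrAll clsAll H36.lambda2 dzuAll
theorem bmbAll : BmbStmt := Helper59_WRA.bmb bmaAll labelAll H62.dzdet H83.pos
  (H40.aform extAll) eqvAll extAll clsAll H36.lambda2
theorem resumAll : ResumStmt := H46.resum bmaAll bmbAll (H46.res1 dzuAll) dztAll dzuAll
theorem sumcAll : SumcStmt := H36.sumc tzeroAll H83.tconj H75.twist

/-- Q1 for the blocks of a wreath product lying over a character of positive defect -/
theorem mainA : MainStmt :=
  main_of H91.chainRed tzeroAll H83.tconj H45.opCore_wreath H75.twist H75.lambda H75.trans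
    H75.box extAll (H13.count extAll H44.cliff) (H13.formStmt extAll) H62.mzero H69.marks
    labelAll H83.pos H83.labSum H62.dzdet

/-- Q1 for all the blocks of a wreath product -/
theorem mainB : MainBStmt :=
  mainB_of mainA H45.opCore_wreath tzeroAll H91.chainRed H75.trans H75.box
    (H13.count extAll H44.cliff) (H13.formStmt extAll) H62.mzero H69.marks labelAll H83.pos
    H83.labSum (H48.dzn H44.kill) H36.lambda2 sumcAll resumAll clsAll

/-- Q1 for the affine groups -/
theorem affAll : AffStmt := aff_of Helper59_WRA.afa (H46.afc H15.afb)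

/-- the groups all of whose alternating sums vanish -/
theorem towerAll (ℓ : ℕ) [Fact ℓ.Prime] (M : Ideal (integralClosure ℤ ℂ))
    [M.IsMaximal] (hℓ : (ℓ : integralClosure ℤ ℂ) ∈ M) (N : Type) [Group N]
    (hN : Tower ℓ N) : Finite N ∧ AllVanish ℓ M N :=
  tower_of mainB H83.pos clsAll H15.afb affAll ℓ M hℓ N hN

end Pool.Agent.Helper79_WRA
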