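import Pool.Agent.Helper51_AWC.Transport

/-!
WRA: Alperin's weight conjecture (alternating sums) for wreath products `G wr L`.
Definitions shared by all modules.
-/

open scoped BigOperators

noncomputable section

namespace Pool.Agent.Helper79_WRA

open Pool.Agent.Helper51_AWC

/-- the wreath product `G wr L = G^Ω ⋊ L` of `G` with a group `L` acting on `Ω` -/
@[ext] structure Wreath (G Ω L : Type) where
  /-- the coordinates in the base group -/
  f : Ω → G
  /-- the component in the top group -/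
  s : L

namespace Wreath

variable {G Ω L : Type} [Group G] [Group L] [MulAction L Ω]

instance : Mul (Wreath G Ω L) := ⟨fun x y => ⟨fun i => x.f i * y.f (x.s⁻¹ • i), x.s * y.s⟩⟩
instance : One (Wreath G Ω L) := ⟨⟨fun _ => 1, 1⟩⟩
instance : Inv (Wreath G Ω L) := ⟨fun x => ⟨fun i => (x.f (x.s • i))⁻¹, x.s⁻¹⟩⟩

theorem mul_f (x y : Wreath G Ω L) (i : Ω) : (x * y).f i = x.f i * y.f (x.s⁻¹ • i) := rfl
theorem mul_s (x y : Wreath G Ω L) : (x * y).s = x.s * y.s := rfl
omit [MulAction L Ω] in
theorem one_f (i : Ω) : (1 : Wreath G Ω L).f i = 1 := rfl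
omit [MulAction L Ω] in
theorem one_s : (1 : Wreath G Ω L).s = 1 := rfl
theorem inv_f (x : Wreath G Ω L) (i : Ω) : (x⁻¹).f i = (x.f (x.s • i))⁻¹ := rfl
theorem inv_s (x : Wreath G Ω L) : (x⁻¹).s = x.s⁻¹ := rfl

instance : Group (Wreath G Ω L) :=
  Group.ofLeftAxioms
    (by
      intro x y z
      apply Wreath.ext
      · funext i
        simp only [mul_f, mul_s, mul_assoc, mul_inv_rev, mul_smul]
      · simp only [mul_s, mul_assoc])
    (by
      intro x
      apply Wreath.ext
      · funext i
        simp only [mul_f, one_f, one_s, one_mul, inv_one, one_smul]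
      · simp only [mul_s, one_s, one_mul])
    (by
      intro x
      apply Wreath.ext
      · funext i
        simp only [mul_f, inv_f, inv_s, inv_inv, one_f, inv_mul_cancel]
      · simp only [mul_s, inv_s, one_s, inv_mul_cancel])

omit [Group G] [Group L] [MulAction L Ω] in
/-- the underlying product type -/
def equivProd (G Ω L : Type) : Wreath G Ω L ≃ (Ω → G) × L where
  toFun x := (x.f, x.s)
  invFun p := ⟨p.1, p.2⟩
  left_inv _ := rfl
  right_inv _ := rfl

omit [Group G] [Group L] [MulAction L Ω] in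
instance [Finite G] [Finite Ω] [Finite L] : Finite (Wreath G Ω L) :=
  Finite.of_equiv _ (equivProd G Ω L).symm

/-- the base group `G^Ω` -/
def base : (Ω → G) →* Wreath G Ω L where
  toFun f := ⟨f, 1⟩
  map_one' := rfl
  map_mul' f g := by
    apply Wreath.ext
    · funext i
      simp only [mul_f, inv_one, one_smul, Pi.mul_apply]
    · simp only [mul_s, one_mul]

theorem base_f (f : Ω → G) : (base f : Wreath G Ω L).f = f := rfl
theorem base_s (f : Ω → G) : (base f : Wreath G Ω L).s = 1 := rfl

theorem base_injective : Function.Injective (base : (Ω → G) →* Wreath G Ω L) := by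
  intro f g h
  exact congrArg Wreath.f h

/-- the complement `L` -/
def top : L →* Wreath G Ω L where
  toFun l := ⟨fun _ => 1, l⟩
  map_one' := rfl
  map_mul' l m := by
    apply Wreath.ext
    · funext i
      simp only [mul_f, one_mul]
    · simp only [mul_s]

theorem top_f (l : L) (i : Ω) : (top l : Wreath G Ω L).f i = 1 := rfl
theorem top_s (l : L) : (top l : Wreath G Ω L).s = l := rfl

theorem top_injective : Function.Injective (top : L →* Wreath G Ω L) := by
  intro l m h
  exact congrArg Wreath.s h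

/-- the projection onto the top group -/
def proj : Wreath G Ω L →* L where
  toFun x := x.s
  map_one' := rfl
  map_mul' _ _ := rfl

theorem proj_apply (x : Wreath G Ω L) : proj x = x.s := rfl

theorem mem_base_range {x : Wreath G Ω L} :
    x ∈ (base : (Ω → G) →* Wreath G Ω L).range ↔ x.s = 1 := by
  constructor
  · rintro ⟨f, rfl⟩; rfl
  · intro h
    exact ⟨x.f, Wreath.ext rfl h.symm⟩

theorem mem_top_range {x : Wreath G Ω L} :
    x ∈ (top : L →* Wreath G Ω L).range ↔ ∀ i, x.f i = 1 := by
  constructor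
  · rintro ⟨l, rfl⟩ i; rfl
  · intro h
    exact ⟨x.s, Wreath.ext (funext fun i => (h i).symm) rfl⟩

theorem conj_f (x y : Wreath G Ω L) (i : Ω) :
    (y * x * y⁻¹).f i = y.f i * x.f (y.s⁻¹ • i) * (y.f ((y.s * x.s⁻¹ * y.s⁻¹) • i))⁻¹ := by
  simp only [mul_f, inv_f, mul_s]
  congr 3
  simp only [mul_inv_rev, mul_smul]

theorem conj_s (x y : Wreath G Ω L) : (y * x * y⁻¹).s = y.s * x.s * y.s⁻¹ := rfl

end Wreath

/-! ### residues -/

/-- the residue field of the algebraic integers at `M` -/
abbrev FF (M : Ideal (integralClosure ℤ ℂ)) : Type := integralClosure ℤ ℂ ⧸ M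

open Classical in
/-- the residue of an algebraic integer (and `0` for other numbers) -/
def red (M : Ideal (integralClosure ℤ ℂ)) (z : ℂ) : FF M :=
  if h : IsIntegral ℤ z then Ideal.Quotient.mk M ⟨z, h⟩ else 0

/-- the pairing of a class function with a (multiple of a) character, divided by the degree:
for `η = ϑ ∈ Irr Λ` and `Φ` the indicator of a class it is the value of the central character -/
def val {Λ : Type} [Group Λ] (Φ η : Λ → ℂ) : ℂ := (∑ᶠ t, Φ t * η t) / η 1

/-- the irreducible characters of a subgroup `H` of `G`, extended by zero to `G` -/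
def IrrS {G : Type} [Group G] (H : Subgroup G) : Set (G → ℂ) :=
  {a | (∀ g, g ∉ H → a g = 0) ∧ (fun h : H => a h) ∈ Irr H}

open Classical in
/-- the `ℓ`-subgroups contained in `W` -/
def psubIn (ℓ : ℕ) {Γ : Type} [Group Γ] [Finite Γ] (W : Subgroup Γ) : Finset (Subgroup Γ) :=
  (Set.toFinite {D : Subgroup Γ | D ≤ W ∧ IsPGroup ℓ D}).toFinset

/-- the centraliser in `N` of all the members of the chain `c` -/
def cent {Γ : Type} [Group Γ] (N : Subgroup Γ) (c : Finset (Subgroup Γ)) : Subgroup Γ :=
  N ⊓ ⨅ D ∈ c, Subgroup.centralizer (D : Set Γ)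

/-- the alternating sum over the chains of `ℓ`-subgroups of `C_N(c)` that occurs for the chain
`c` -/
def tsum (ℓ : ℕ) {Γ : Type} [Group Γ] [Finite Γ] (N : Subgroup Γ) (w : Subgroup Γ → ℤ)
    (c : Finset (Subgroup Γ)) : ℤ :=
  ∑ v ∈ chainsOn (psubIn ℓ (cent N c)) ⊥, (-1) ^ (v.card + 1) * w (stab c ⊓ stab v)

/-! ### boxes: chains of functions `Δ → Subgroup G` -/

section boxes

variable {G Δ K : Type} [Group G] [Group K] [MulAction K Δ]

open Classical in
/-- the functions from `Δ` to the `ℓ`-subgroups of `G` -/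
def boxes (ℓ : ℕ) (G Δ : Type) [Group G] [Finite G] [Finite Δ] : Finset (Δ → Subgroup G) :=
  (Set.toFinite {R : Δ → Subgroup G | ∀ j, R j ∈ psub ℓ G}).toFinset

/-- the stabiliser in `G` of the column `j` of `v` -/
def colStab (v : Finset (Δ → Subgroup G)) (j : Δ) : Subgroup G :=
  ⨅ R ∈ v, Subgroup.normalizer ((R j : Subgroup G) : Set G)

/-- the stabiliser of `v` in the wreath product -/
def boxStab (K : Type) [Group K] [MulAction K Δ] (v : Finset (Δ → Subgroup G)) :
    Subgroup (Wreath G Δ K) where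
  carrier := {t | ∀ R ∈ v, ∀ j, conjS (t.f j) (R (t.s⁻¹ • j)) = R j}
  one_mem' := by
    intro R _ j
    rw [Wreath.one_s, Wreath.one_f, inv_one, one_smul, conjS_one]
  mul_mem' := by
    intro x y hx hy R hR j
    rw [Wreath.mul_f, Wreath.mul_s, ← conjS_conjS, mul_inv_rev, mul_smul, hy R hR, hx R hR]
  inv_mem' := by
    intro x hx R hR j
    rw [Wreath.inv_f, Wreath.inv_s, inv_inv]
    have := hx R hR (x.s • j)
    rw [inv_smul_smul] at this
    rw [← this, conjS_conjS, inv_mul_cancel, conjS_one]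

/-- the stabiliser in the wreath product of the pair `(v, α)` -/
def stX (K : Type) [Group K] [MulAction K Δ] (v : Finset (Δ → Subgroup G)) (α : Δ → G → ℂ) :
    Subgroup (Wreath G Δ K) where
  carrier := {t | (∀ R ∈ v, ∀ j, conjS (t.f j) (R (t.s⁻¹ • j)) = R j) ∧
    ∀ j y, α j (t.f j * y * (t.f j)⁻¹) = α (t.s⁻¹ • j) y}
  one_mem' := by
    refine ⟨(boxStab K v).one_mem, ?_⟩
    intro j y
    simp only [Wreath.one_s, Wreath.one_f, inv_one, one_smul, one_mul, mul_one]
  mul_mem' := by
    intro x y hx hy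
    refine ⟨(boxStab K v).mul_mem hx.1 hy.1, ?_⟩
    intro j z
    have e : (x * y).f j * z * ((x * y).f j)⁻¹ =
        x.f j * (y.f (x.s⁻¹ • j) * z * (y.f (x.s⁻¹ • j))⁻¹) * (x.f j)⁻¹ := by
      rw [Wreath.mul_f, mul_inv_rev]; simp only [mul_assoc]
    rw [e, hx.2, hy.2, Wreath.mul_s, mul_inv_rev, mul_smul]
  inv_mem' := by
    intro x hx
    refine ⟨(boxStab K v).inv_mem hx.1, ?_⟩
    intro j z
    have := hx.2 (x.s • j) ((x⁻¹).f j * z * ((x⁻¹).f j)⁻¹)
    rw [inv_smul_smul] at this
    rw [← this, Wreath.inv_f, Wreath.inv_s, inv_inv]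
    congr 1
    group

/-- the image of the stabiliser of `(v, α)` in the top group -/
def topSt (K : Type) [Group K] [MulAction K Δ] (v : Finset (Δ → Subgroup G)) (α : Δ → G → ℂ) :
    Subgroup K := (stX K v α).map (Wreath.proj : Wreath G Δ K →* K)

/-- `α j` is an irreducible character of the stabiliser of the column `j` of `v` -/
def IsChars (v : Finset (Δ → Subgroup G)) (α : Δ → G → ℂ) : Prop :=
  ∀ j, α j ∈ IrrS (colStab v j)

/-- a set of representatives of the cycles of `h` -/
def IsBase (h : K) (B : Finset Δ) : Prop :=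
  ∀ j : Δ, ∃! b, b ∈ B ∧ b ∈ MulAction.orbit (Subgroup.zpowers h) j

open Classical in
/-- `X` is the extension of `∏ α_j` to the stabiliser of `(v, α)` (extended by zero) -/
structure IsExt [Fintype Δ] (K : Type) [Group K] [MulAction K Δ] (v : Finset (Δ → Subgroup G))
    (α : Δ → G → ℂ) (X : Wreath G Δ K → ℂ) : Prop where
  mem : X ∈ IrrS (stX K v α)
  base : ∀ y : Δ → G, X (Wreath.base y) = ∏ j, α j (y j)
  value : ∀ t ∈ stX K v α, ∀ B : Finset Δ, IsBase t.s B →
    X t = ∏ b ∈ B, α b ((t ^ Function.minimalPeriod (fun i : Δ => t.s • i) b).f b)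
  form : ∀ h ∈ topSt K v α, ∀ B : Finset Δ, IsBase h B → ∀ Φ : Wreath G Δ K → ℂ,
    (∀ x (a : Δ → G), Φ (Wreath.base a * x * (Wreath.base a)⁻¹) = Φ x) →
      ∑ᶠ w : Δ → G, Φ ⟨w, h⟩ * X ⟨w, h⟩ =
        (∏ j, if j ∈ B then 1 else (Nat.card (colStab v j) : ℂ)) *
          ∑ᶠ (y : Δ → G) (_ : ∀ j, j ∉ B → y j = 1), Φ ⟨y, h⟩ * ∏ b ∈ B, α b (y b)

open Classical in
/-- the chosen extension -/
def ext [Fintype Δ] (K : Type) [Group K] [MulAction K Δ] (v : Finset (Δ → Subgroup G))
    (α : Δ → G → ℂ) : Wreath G Δ K → ℂ :=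
  if h : ∃ X, IsExt K v α X then h.choose else 0

/-- the class function on the wreath product attached to `(v, α)` and to a character `lam` of a
subgroup of the top group -/
def eta [Fintype Δ] (v : Finset (Δ → Subgroup G)) (α : Δ → G → ℂ) (lam : K → ℂ) :
    Wreath G Δ K → ℂ := fun t => ext K v α t * lam t.s

/-- the label of a character of a subgroup of `G` (extended by zero): the central character of
the induced block -/
def labF (M : Ideal (integralClosure ℤ ℂ)) (a : G → ℂ) : G → FF M :=
  fun g => red M (omega (MonoidHom.id G) a g)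

/-- the local datum at the position `j` -/
def dat (M : Ideal (integralClosure ℤ ℂ)) (v : Finset (Δ → Subgroup G)) (α : Δ → G → ℂ) (j : Δ) :
    (G → FF M) × FF M :=
  (labF M (α j), red M ((Nat.card (colStab v j) : ℂ) / α j 1))

open Classical in
/-- the finite set of the `α` -/
def charsOf [Finite G] [Finite Δ] (v : Finset (Δ → Subgroup G)) : Finset (Δ → G → ℂ) :=
  if h : {α : Δ → G → ℂ | IsChars v α}.Finite then h.toFinset else ∅

end boxes

/-- the block condition: `val (Φ z) η` is congruent to the given value for all `z` -/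
def Good {Λ I : Type} [Group Λ] (M : Ideal (integralClosure ℤ ℂ)) (Φ : I → Λ → ℂ) (ws : I → ℂ)
    (η : Λ → ℂ) : Prop := ∀ z, Cong M (val (Φ z) η) (ws z)

/-- `a` (a character of a subgroup of `G`, extended by zero) has the label of a block of `G` of
positive defect -/
def PosL {G : Type} [Group G] [Finite G] (ℓ : ℕ) (M : Ideal (integralClosure ℤ ℂ)) (a : G → ℂ) :
    Prop :=
  ∃ χ ∈ Irr G, LargeDefect ℓ M χ ∧ labF M a = labF M χ

/-- `χ` lies over the character `∏ α_i` of the base group -/
def LiesOver {G Ω L : Type} [Group G] [Group L] [MulAction L Ω] [Fintype Ω]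
    (χ : Wreath G Ω L → ℂ) (α : Ω → G → ℂ) : Prop :=
  (∑ᶠ f : Ω → G, χ (Wreath.base f) * ∏ i, α i (f i)⁻¹) ≠ 0

end Pool.Agent.Helper79_WRA
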