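import Pool.Agent.Helper79_WRA.Stmt
import Pool.Agent.Helper79_WRA.Basic

/-!
WRA, second stage: blocks of `G wr L` over characters of defect zero of the base group.
-/

open scoped BigOperators

noncomputable section

namespace Pool.Agent.Helper79_WRA

open Pool.Agent.Helper51_AWC

section lam

variable {L : Type} [Group L]

/-- the subgroup generated by the members of `c` (the greatest member if `c` is a chain) -/
def topP (c : Finset (Subgroup L)) : Subgroup L := ⨆ D ∈ c, D

theorem conjS_topP {c : Finset (Subgroup L)} {g : L} (hg : g ∈ stab c) :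
    conjS g (topP c) = topP c := by
  rw [mem_stab] at hg
  unfold topP conjS
  rw [Subgroup.map_iSup]
  apply iSup_congr
  intro D
  rw [Subgroup.map_iSup]
  apply iSup_congr
  intro hD
  exact hg D hD

/-- the orbits of `topP c` on `Ω` -/
def Dl (c : Finset (Subgroup L)) (Ω : Type) [MulAction L Ω] : Type :=
  MulAction.orbitRel.Quotient (topP c) Ω

variable {Ω : Type} [MulAction L Ω]

/-- the projection onto the orbits -/
def qq (c : Finset (Subgroup L)) (i : Ω) : Dl c Ω :=
  Quotient.mk (MulAction.orbitRel (topP c) Ω) i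

theorem qq_surjective (c : Finset (Subgroup L)) :
    Function.Surjective (qq c : Ω → Dl c Ω) := by
  intro j
  exact Quotient.inductionOn j (fun i => ⟨i, rfl⟩)

theorem qq_eq_iff {c : Finset (Subgroup L)} {i i' : Ω} :
    (qq c i : Dl c Ω) = qq c i' ↔ ∃ p ∈ topP c, p • i = i' := by
  have h : (qq c i : Dl c Ω) = qq c i' ↔ (MulAction.orbitRel (topP c) Ω) i' i := by
    constructor
    · intro h
      exact (MulAction.orbitRel (topP c) Ω).iseqv.symm (Quotient.exact h)
    · intro h
      exact Quotient.sound ((MulAction.orbitRel (topP c) Ω).iseqv.symm h)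
  rw [h, MulAction.orbitRel_apply, MulAction.mem_orbit_iff]
  constructor
  · rintro ⟨p, hp⟩; exact ⟨p, p.2, hp⟩
  · rintro ⟨p, hp, h⟩; exact ⟨⟨p, hp⟩, h⟩

instance [Finite Ω] (c : Finset (Subgroup L)) : Finite (Dl c Ω) :=
  Finite.of_surjective _ (qq_surjective c)

instance [Finite Ω] (c : Finset (Subgroup L)) : Fintype (Dl c Ω) := Fintype.ofFinite _

/-- the action of the stabiliser of `c` on the orbits -/
instance (c : Finset (Subgroup L)) : MulAction (stab c) (Dl c Ω) where
  smul k := Quotient.lift (fun i => qq c ((k : L) • i)) (by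
    intro i i' h
    have h1 : (qq c i : Dl c Ω) = qq c i' := Quotient.sound h
    obtain ⟨p, hp, rfl⟩ := qq_eq_iff.1 h1
    rw [qq_eq_iff]
    refine ⟨k * p * (k : L)⁻¹, ?_, ?_⟩
    · rw [← conjS_topP k.2, mem_conjS]
      have : (k : L)⁻¹ * (k * p * (k : L)⁻¹) * k = p := by group
      rw [this]; exact hp
    · rw [mul_smul, inv_smul_smul, mul_smul])
  one_smul := by
    intro j
    obtain ⟨i, rfl⟩ := qq_surjective c j
    show qq c (((1 : stab c) : L) • i) = qq c i
    rw [Subgroup.coe_one, one_smul]
  mul_smul := by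
    intro x y j
    obtain ⟨i, rfl⟩ := qq_surjective c j
    show qq c (((x * y : stab c) : L) • i) = qq c ((x : L) • ((y : L) • i))
    rw [Subgroup.coe_mul, mul_smul]

theorem smul_qq (c : Finset (Subgroup L)) (k : stab c) (i : Ω) :
    k • (qq c i : Dl c Ω) = qq c ((k : L) • i) := rfl

/-- the embedding of the smaller wreath product -/
def iota (c : Finset (Subgroup L)) (G Ω : Type) [Group G] [MulAction L Ω] :
    Wreath G (Dl c Ω) (stab c) →* Wreath G Ω L where
  toFun x := ⟨fun i => x.f (qq c i), (x.s : L)⟩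
  map_one' := rfl
  map_mul' x y := by
    apply Wreath.ext
    · funext i
      show (x * y).f (qq c i) = x.f (qq c i) * y.f (qq c ((x.s : L)⁻¹ • i))
      rw [Wreath.mul_f]
      rfl
    · rfl

theorem iota_apply (c : Finset (Subgroup L)) {G : Type} [Group G]
    (x : Wreath G (Dl c Ω) (stab c)) :
    iota c G Ω x = ⟨fun i => x.f (qq c i), (x.s : L)⟩ := rfl

open Classical in
/-- the chain `c` of subgroups of `L` as a chain of subgroups of the wreath product -/
def topc (c : Finset (Subgroup L)) (G Ω : Type) [Group G] [MulAction L Ω] :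
    Finset (Subgroup (Wreath G Ω L)) :=
  c.image (fun D => D.map (Wreath.top : L →* Wreath G Ω L))

end lam

/-- the irreducible characters of defect zero -/
def DZ (ℓ : ℕ) (M : Ideal (integralClosure ℤ ℂ)) (G : Type) [Group G] [Finite G] : Set (G → ℂ) :=
  {ξ | ξ ∈ Irr G ∧ ¬ LargeDefect ℓ M ξ}

open Classical in
/-- the trivial chain of boxes -/
def triv (G Δ : Type) [Group G] : Finset (Δ → Subgroup G) := {fun _ => ⊥}

/-- `ξ'` has the label of the `ℓ^n`-Frobenius twist of `ξ` -/
def IsTw (ℓ : ℕ) (M : Ideal (integralClosure ℤ ℂ)) {G : Type} [Group G] (n : ℕ)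
    (ξ ξ' : G → ℂ) : Prop :=
  ∀ g, labF M ξ' g = (labF M ξ g) ^ (ℓ ^ n)

/-- the action of the top group on families of class functions -/
def tr {G Ω L : Type} [Group L] [MulAction L Ω] (l : L) (β : Ω → G → ℂ) : Ω → G → ℂ :=
  fun i => β (l⁻¹ • i)

/-- the stabiliser in the top group of a family of class functions -/
abbrev LL {G Ω : Type} [Group G] (L : Type) [Group L] [MulAction L Ω] (β : Ω → G → ℂ) :
    Subgroup L := topSt L (triv G Ω) β

/-- the extension of `∏ β_i` to the stabiliser -/
abbrev ex {G Ω : Type} [Group G] [Fintype Ω] (L : Type) [Group L] [MulAction L Ω]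
    (β : Ω → G → ℂ) : Wreath G Ω L → ℂ := ext L (triv G Ω) β

/-- the class function attached to `β` and a character of its stabiliser in the top group -/
abbrev et {G Ω L : Type} [Group G] [Fintype Ω] [Group L] [MulAction L Ω]
    (β : Ω → G → ℂ) (lam : L → ℂ) : Wreath G Ω L → ℂ := eta (triv G Ω) β lam

/-- the test class function attached to `β` and `h₀` -/
def testT {G Ω L : Type} [Group G] [Fintype Ω] [Group L] [MulAction L Ω]
    (β : Ω → G → ℂ) (h₀ : L) : Wreath G Ω L → ℂ :=
  fun x => ∑ᶠ (β' : Ω → G → ℂ) (_ : ∃ l : L, β' = tr l β ∧ x.s = l * h₀ * l⁻¹),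
    ex L β' x⁻¹

/-- the product of the `|G|/β_i(1)` -/
def uu {G Ω : Type} [Group G] [Fintype Ω] (β : Ω → G → ℂ) : ℂ :=
  ∏ i, (Nat.card G : ℂ) / β i 1

/-- the value at the `U`-class of `h` of the central character of a character `lam` (extended by
zero) of a subgroup of `U` -/
def ulab {K : Type} [Group K] (U : Subgroup K) (lam : K → ℂ) (h : K) : ℂ :=
  (∑ᶠ (x : K) (_ : ∃ u ∈ U, x = u * h * u⁻¹), lam x) / lam 1

/-- the restriction to a subgroup -/
def resT {K : Type} [Group K] (U : Subgroup K) (lam : K → ℂ) : U → ℂ := fun x => lam x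

open Classical in
/-- the subgroups of the chain `c` as subgroups of `U` -/
def inU {K : Type} [Group K] (U : Subgroup K) (c : Finset (Subgroup K)) :
    Finset (Subgroup U) := c.image (fun D => D.subgroupOf U)

/-- the alternating sum over the chains starting from the trivial group -/
def sum0 (ℓ : ℕ) (M : Ideal (integralClosure ℤ ℂ)) {X : Type} [Group X] [Finite X]
    (μ : X → ℂ) : ℤ :=
  ∑ c ∈ chainsOn (psubIn ℓ (⊤ : Subgroup X)) ⊥, (-1) ^ (c.card + 1) * (weight M μ c : ℤ)

/-- the indicator functions of the classes of `Γ`, pulled back along `ι` -/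
def clas {Λ Γ : Type} [Group Λ] [Group Γ] (ι : Λ →* Γ) : Γ → Λ → ℂ := by
  classical
  exact fun g t => if IsConj g (ι t) then (1 : ℂ) else 0

end Pool.Agent.Helper79_WRA
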