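import Pool.Agent.Helper79_WRA.StmtC

/-!
WRA: the final theorem from the module statements.
-/

open scoped BigOperators

noncomputable section

namespace Pool.Agent.Helper79_WRA

open Pool.Agent.Helper51_AWC

/-- a group of order `ℓ` acting on itself -/
abbrev Cyc (ℓ : ℕ) : Type := Multiplicative (ZMod ℓ)

section final

/-- a trivial group has no character of positive defect -/
theorem q1_of_subsingleton {ℓ : ℕ} [hp : Fact ℓ.Prime] (M : Ideal (integralClosure ℤ ℂ))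
    {X : Type} [Group X] [Finite X] (h : Nat.card X = 1) : Q1For ℓ M X := by
  rintro χ hχ ⟨ψ, hψ, -, n, hn, hdvd⟩
  exfalso
  rw [h] at hdvd
  have h1 := Nat.eq_one_of_mul_eq_one_right (Nat.dvd_one.1 hdvd)
  have h2 := Nat.eq_one_of_mul_eq_one_right h1
  exact hp.out.one_lt.ne' h2

/-- the theorem for the wreath products with `C_ℓ` -/
theorem q1_cyc (hB : MainBStmt) {ℓ : ℕ} [hp : Fact ℓ.Prime]
    (M : Ideal (integralClosure ℤ ℂ)) [M.IsMaximal] (hℓ : (ℓ : integralClosure ℤ ℂ) ∈ M)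
    {G : Type} [Group G] [Finite G] (hnt : Nontrivial G) (hG : opCore ℓ G = ⊥)
    (hQ : Q1For ℓ M G) :
    opCore ℓ (Wreath G (Cyc ℓ) (Cyc ℓ)) = ⊥ ∧ Q1For ℓ M (Wreath G (Cyc ℓ) (Cyc ℓ)) := by
  have hne : NeZero ℓ := ⟨hp.out.ne_zero⟩
  have : Finite (Cyc ℓ) := Finite.of_equiv (ZMod ℓ) Multiplicative.ofAdd
  obtain ⟨h1, h2⟩ := hB ℓ M hℓ G hnt hG hQ (Cyc ℓ) (Cyc ℓ)
  refine ⟨h1, h2.2 ?_⟩
  intro β _ hU
  apply q1_of_subsingleton
  -- the stabiliser is an `ℓ`-group with trivial `O_ℓ`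
  have hc : Nat.card (Cyc ℓ) = ℓ ^ 1 := by
    rw [pow_one]
    rw [show Nat.card (Cyc ℓ) = Nat.card (ZMod ℓ) from Nat.card_congr Multiplicative.toAdd,
      Nat.card_zmod]
  have hpg : IsPGroup ℓ (famStab (Cyc ℓ) β) := (IsPGroup.of_card hc).to_subgroup _
  have htop : (⊤ : Subgroup (famStab (Cyc ℓ) β)) ≤ opCore ℓ (famStab (Cyc ℓ) β) :=
    (opCore_spec ℓ (famStab (Cyc ℓ) β)).2.2 ⊤ inferInstance (hpg.to_subgroup _)
  rw [hU] at htop
  have : Nat.card (⊤ : Subgroup (famStab (Cyc ℓ) β)) = 1 := by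
    rw [le_bot_iff.1 htop, Subgroup.card_bot]
  rwa [Subgroup.card_top] at this

/-- degrees and defects -/
theorem codeg_wreath {G Ω L : Type} [Group G] [Finite G] [Fintype Ω] [Group L] [Finite L]
    [MulAction L Ω] (χ : Wreath G Ω L → ℂ) (β : Ω → G → ℂ) (μ : L → ℂ)
    (hχ : χ ∈ Irr (Wreath G Ω L)) (hβ : ∀ i, β i ∈ Irr G) (hμ : μ ∈ IrrS (LL L β))
    (hdeg : χ 1 * (Nat.card (LL L β) : ℂ) = (Nat.card L : ℂ) * (∏ i, β i 1) * μ 1) :
    (Nat.card (Wreath G Ω L) : ℂ) / χ 1 = uu β * ((Nat.card (LL L β) : ℂ) / μ 1) := by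
  have hχ1 : χ 1 ≠ 0 := irr_one_ne hχ
  have hμ1 : μ 1 ≠ 0 := IrrS_one_ne hμ
  have hα1 : ∀ i, β i 1 ≠ 0 := fun i => irr_one_ne (hβ i)
  have hp : (∏ i, β i 1) ≠ 0 := Finset.prod_ne_zero_iff.2 fun i _ => hα1 i
  have huu : uu β = (Nat.card G : ℂ) ^ Nat.card Ω / ∏ i, β i 1 := by
    unfold uu
    rw [Finset.prod_div_distrib, Finset.prod_const, Finset.card_univ,
      ← Nat.card_eq_fintype_card]
  rw [huu, card_wreath]
  push_cast
  rw [div_mul_div_comm, div_eq_div_iff hχ1 (mul_ne_zero hp hμ1)]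
  have : (Nat.card G : ℂ) ^ Nat.card Ω * (Nat.card L : ℂ) * ((∏ i, β i 1) * μ 1) =
      (Nat.card G : ℂ) ^ Nat.card Ω * ((Nat.card L : ℂ) * (∏ i, β i 1) * μ 1) := by ring
  rw [this, ← hdeg]
  ring

/-- the irreducible characters of a group of prime order have degree one -/
theorem degree_prime {ℓ : ℕ} [hp : Fact ℓ.Prime] {X : Type} [Group X] [Finite X]
    (hX : Nat.card X = ℓ) {χ : X → ℂ} (hχ : χ ∈ Irr X) : χ 1 = 1 := by
  classical
  have := Fintype.ofFinite X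
  have := Fintype.ofFinite (Irr X)
  obtain ⟨n, hn, h1⟩ := irr_one hχ
  have hs := sum_one_mul (G := X) 1
  rw [if_pos rfl, ← Nat.card_eq_fintype_card, hX] at hs
  have hall : ∀ ψ : Irr X, ∃ m : ℕ, (ψ : X → ℂ) 1 = m := fun ψ => by
    obtain ⟨m, _, h⟩ := irr_one ψ.2
    exact ⟨m, h⟩
  choose m hm using hall
  have hs' : ∑ ψ : Irr X, m ψ * m ψ = ℓ := by
    have : ((∑ ψ : Irr X, m ψ * m ψ : ℕ) : ℂ) = (ℓ : ℂ) := by
      rw [← hs]
      push_cast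
      apply Finset.sum_congr rfl
      intro ψ _
      rw [hm]
    exact_mod_cast this
  have hmn : m ⟨χ, hχ⟩ = n := by
    have h2 : χ 1 = (m ⟨χ, hχ⟩ : ℂ) := hm ⟨χ, hχ⟩
    rw [h1] at h2
    exact_mod_cast h2.symm
  have hle : n * n ≤ ℓ := by
    rw [← hs', ← hmn]
    exact Finset.single_le_sum (f := fun ψ : Irr X => m ψ * m ψ) (fun _ _ => Nat.zero_le _)
      (Finset.mem_univ (⟨χ, hχ⟩ : Irr X))
  -- `n` divides `ℓ`
  have hint := codeg_int hχ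
  rw [hX, h1] at hint
  have hdvd : n ∣ ℓ := by
    have h2 : ((ℓ : ℂ) / (n : ℂ)) = ((ℓ / n : ℚ) : ℂ) := by push_cast; rfl
    rw [h2] at hint
    have h3 : IsIntegral ℤ ((ℓ : ℚ) / n) := by
      have := (isIntegral_algHom_iff (Algebra.ofId ℚ ℂ |>.restrictScalars ℤ)
        (Algebra.ofId ℚ ℂ).toRingHom.injective (x := (ℓ : ℚ) / n)).1
      exact this (by simpa using hint)
    obtain ⟨z, hz⟩ := IsIntegrallyClosed.isIntegral_iff.1 h3
    have hn0 : (n : ℚ) ≠ 0 := by exact_mod_cast hn.ne'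
    have h4 : (ℓ : ℚ) = z * n := by
      have : (z : ℚ) = (ℓ : ℚ) / n := by simpa using hz
      rw [this]; field_simp
    have h5 : (ℓ : ℤ) = z * n := by exact_mod_cast h4
    exact Int.natCast_dvd_natCast.1 ⟨z, by rw [h5]; ring⟩
  rcases (Nat.dvd_prime hp.out).1 hdvd with h | h
  · rw [h1, h]; norm_num
  · exfalso
    rw [h] at hle
    have := hp.out.one_lt
    nlinarith

/-- if `G` has at most one character of defect zero then `G wr C_ℓ` has none -/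
theorem nodz (hps : PosStmt) (hcl : ClsStmt) {ℓ : ℕ} [hp : Fact ℓ.Prime]
    (M : Ideal (integralClosure ℤ ℂ)) [M.IsMaximal] (hℓ : (ℓ : integralClosure ℤ ℂ) ∈ M)
    {G : Type} [Group G] [Finite G] (hG : opCore ℓ G = ⊥)
    (hΓ : opCore ℓ (Wreath G (Cyc ℓ) (Cyc ℓ)) = ⊥)
    (huniq : ∀ ξ ∈ DZ ℓ M G, ∀ ξ' ∈ DZ ℓ M G, ξ = ξ') [Finite (Cyc ℓ)] :
    ∀ χ ∈ Irr (Wreath G (Cyc ℓ) (Cyc ℓ)), LargeDefect ℓ M χ := by
  classical
  intro χ hχ
  have := Fintype.ofFinite (Cyc ℓ)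
  obtain ⟨-, hc2, hc3⟩ := hcl G (Cyc ℓ) (Cyc ℓ)
  obtain ⟨β, hβ, hover⟩ := hc3 χ hχ
  obtain ⟨μ, hμ, -, hdeg⟩ := hc2 χ hχ β hβ hover
  rw [(hps ℓ M hℓ _ hΓ).1 χ hχ, codeg_wreath χ β μ hχ hβ hμ hdeg]
  have hui : ∀ i ∈ (Finset.univ : Finset (Cyc ℓ)), IsIntegral ℤ ((Nat.card G : ℂ) / β i 1) :=
    fun i _ => codeg_int (hβ i)
  have huI : IsIntegral ℤ (uu β) := IsIntegral.prod _ hui
  have hμI : IsIntegral ℤ ((Nat.card (LL (Cyc ℓ) β) : ℂ) / μ 1) := by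
    have := codeg_int hμ.2
    simpa using this
  rw [red_mul huI hμI]
  by_cases hpos : ∃ i, LargeDefect ℓ M (β i)
  · obtain ⟨i, hi⟩ := hpos
    have : red M (uu β) = 0 := by
      unfold uu
      rw [red_prod _ _ hui]
      apply Finset.prod_eq_zero (Finset.mem_univ i)
      exact ((hps ℓ M hℓ G hG).1 (β i) (hβ i)).1 hi
    rw [this, zero_mul]
  · have hβD : ∀ i, β i ∈ DZ ℓ M G := fun i => ⟨hβ i, fun h => hpos ⟨i, h⟩⟩
    have hLL : LL (Cyc ℓ) β = ⊤ := by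
      rw [eq_top_iff]
      intro h _
      rw [mem_LL hβ]
      intro i
      exact huniq _ (hβD _) _ (hβD _)
    have hcard : Nat.card (LL (Cyc ℓ) β) = ℓ := by
      rw [hLL, Subgroup.card_top]
      rw [show Nat.card (Cyc ℓ) = Nat.card (ZMod ℓ) from Nat.card_congr Multiplicative.toAdd,
        Nat.card_zmod]
    have h1 : μ 1 = 1 := by
      have := degree_prime hcard hμ.2
      simpa using this
    rw [h1, hcard, div_one]
    have : red M (ℓ : ℂ) = 0 := by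
      have hi : IsIntegral ℤ (ℓ : ℂ) := AI.natCast ℓ
      rw [red_of hi, Ideal.Quotient.eq_zero_iff_mem]
      have : (⟨(ℓ : ℂ), hi⟩ : integralClosure ℤ ℂ) = (ℓ : integralClosure ℤ ℂ) := by
        apply Subtype.ext
        simp
      rw [this]; exact hℓ
    rw [this, mul_zero]

/-- the affine groups have exactly one character of defect zero -/
theorem aff_uniq (hps : PosStmt) (hafb : AfbStmt) {ℓ : ℕ} [hp : Fact ℓ.Prime]
    (M : Ideal (integralClosure ℤ ℂ)) [M.IsMaximal] (hℓ : (ℓ : integralClosure ℤ ℂ) ∈ M)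
    {F : Type} [Field F] [Finite F] (hdvd : ℓ ∣ Nat.card F - 1)
    (hG : opCore ℓ (Aff F) = ⊥) :
    ∀ ξ ∈ DZ ℓ M (Aff F), ∀ ξ' ∈ DZ ℓ M (Aff F), ξ = ξ' := by
  classical
  have hlin : ∀ ψ : Fˣ →* ℂˣ, (fun x : Aff F => (ψ x.a : ℂ)) ∉ DZ ℓ M (Aff F) := by
    rintro ψ ⟨h1, h2⟩
    apply h2
    rw [(hps ℓ M hℓ _ hG).1 _ h1]
    have e1 : ((ψ (1 : Aff F).a : ℂˣ) : ℂ) = 1 := by
      rw [Aff.one_a, map_one, Units.val_one]
    rw [e1, div_one]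
    have hc : Nat.card (Aff F) = Nat.card Fˣ * Nat.card F := by
      rw [Nat.card_congr (Aff.equivProd F), Nat.card_prod]
    have hu : Nat.card Fˣ = Nat.card F - 1 := by
      have := Fintype.ofFinite F
      rw [Nat.card_eq_fintype_card, Nat.card_eq_fintype_card, Fintype.card_units]
    have hd : ℓ ∣ Nat.card (Aff F) := by
      rw [hc, hu]; exact Dvd.dvd.mul_right hdvd _
    obtain ⟨k, hk⟩ := hd
    have hi : IsIntegral ℤ ((Nat.card (Aff F) : ℕ) : ℂ) := AI.natCast _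
    rw [red_of hi, Ideal.Quotient.eq_zero_iff_mem]
    have : (⟨((Nat.card (Aff F) : ℕ) : ℂ), hi⟩ : integralClosure ℤ ℂ) =
        (ℓ : integralClosure ℤ ℂ) * (k : integralClosure ℤ ℂ) := by
      apply Subtype.ext
      show ((Nat.card (Aff F) : ℕ) : ℂ) = _
      rw [hk]; simp
    rw [this]
    exact M.mul_mem_right _ hℓ
  intro ξ hξ ξ' hξ'
  rcases (hafb F ξ).1 hξ.1 with ⟨ψ, rfl⟩ | h
  · exact absurd hξ (hlin ψ)
  rcases (hafb F ξ').1 hξ'.1 with ⟨ψ, rfl⟩ | h'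
  · exact absurd hξ' (hlin ψ)
  rw [h, h']

/-- the unconditional theorem -/
theorem unconditional (hB : MainBStmt) (hps : PosStmt) (hcl : ClsStmt) (hafb : AfbStmt)
    (haff : AffStmt) (ℓ : ℕ) [hp : Fact ℓ.Prime] (M : Ideal (integralClosure ℤ ℂ))
    [M.IsMaximal] (hℓ : (ℓ : integralClosure ℤ ℂ) ∈ M) (F : Type) [Field F] [Finite F]
    (hdvd : ℓ ∣ Nat.card F - 1) (Ω L : Type) [Finite Ω] [Group L] [Finite L] [MulAction L Ω]
    [FaithfulSMul L Ω] :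
    opCore ℓ (Wreath (Wreath (Aff F) (Cyc ℓ) (Cyc ℓ)) Ω L) = ⊥ ∧
      Q1For ℓ M (Wreath (Wreath (Aff F) (Cyc ℓ) (Cyc ℓ)) Ω L) := by
  have hne : NeZero ℓ := ⟨hp.out.ne_zero⟩
  have hfin : Finite (Cyc ℓ) := Finite.of_equiv (ZMod ℓ) Multiplicative.ofAdd
  obtain ⟨h1, h2⟩ := haff ℓ M hℓ F hdvd
  have hnt : Nontrivial (Aff F) := ⟨⟨⟨1, 0⟩, ⟨1, 1⟩, fun h => by
    have := congrArg Aff.b h
    exact zero_ne_one this⟩⟩
  obtain ⟨h3, h4⟩ := q1_cyc hB M hℓ hnt h1 h2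
  have hno := nodz hps hcl M hℓ h1 h3 (aff_uniq hps hafb M hℓ hdvd h1)
  have hnt' : Nontrivial (Wreath (Aff F) (Cyc ℓ) (Cyc ℓ)) := by
    refine ⟨⟨1, ⟨fun _ => ⟨1, 1⟩, 1⟩, fun h => ?_⟩⟩
    have := congrArg (fun x : Wreath (Aff F) (Cyc ℓ) (Cyc ℓ) => (x.f 1).b) h
    exact zero_ne_one this
  obtain ⟨h5, h6⟩ := hB ℓ M hℓ (Wreath (Aff F) (Cyc ℓ) (Cyc ℓ)) hnt' h3 h4 Ω L
  refine ⟨h5, h6.2 ?_⟩
  intro β hβ _
  rcases isEmpty_or_nonempty Ω with hΩ | ⟨⟨i⟩⟩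
  · apply q1_of_subsingleton
    have : Subsingleton L := ⟨fun a b => FaithfulSMul.eq_of_smul_eq_smul
      (fun i : Ω => (hΩ.false i).elim)⟩
    have : Subsingleton (famStab L β) := ⟨fun a b => Subtype.ext (Subsingleton.elim _ _)⟩
    exact Nat.card_of_subsingleton (1 : famStab L β)
  · exact absurd (hno _ (hβ i).1) (hβ i).2

end final

end Pool.Agent.Helper79_WRA
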