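import Pool.Agent.Helper79_WRA.Final

/-!
Groups all of whose alternating sums vanish.
-/

open scoped BigOperators

noncomputable section

namespace Pool.Agent.Results.MP_6a3f1a_al.VanishingTowers

open Pool.Agent.Helper51_AWC Pool.Agent.Helper79_WRA

/-- Q1 holds for all the groups of the class `Tower ℓ` : `O_ℓ(N) = 1`, every block of `N` has
positive defect, and its alternating sum vanishes. -/
theorem result :
    ∀ (ℓ : ℕ) [Fact ℓ.Prime] (M : Ideal (integralClosure ℤ ℂ)) [M.IsMaximal],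
      (ℓ : integralClosure ℤ ℂ) ∈ M → ∀ (N : Type) [Group N], Tower ℓ N →
      Finite N ∧ opCore ℓ N = ⊥ ∧ ∀ χ ∈ Irr N, LargeDefect ℓ M χ ∧ altSum ℓ M χ = 0 :=
  fun ℓ _ M _ hℓ N _ hN => towerAll ℓ M hℓ N hN

end Pool.Agent.Results.MP_6a3f1a_al.VanishingTowers
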