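import Pool.Agent.Helper79_WRA.AsmB

/-!
WRA, third stage: unconditional examples. The affine groups `AGL_1(F)`.
-/

open scoped BigOperators

noncomputable section

namespace Pool.Agent.Helper79_WRA

open Pool.Agent.Helper51_AWC

/-- the affine group `AGL_1(F)`: the maps `x ↦ a x + b` -/
@[ext] structure Aff (F : Type) [Field F] where
  a : Fˣ
  b : F

namespace Aff

variable {F : Type} [Field F]

instance : Mul (Aff F) := ⟨fun x y => ⟨x.a * y.a, (x.a : F) * y.b + x.b⟩⟩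
instance : One (Aff F) := ⟨⟨1, 0⟩⟩
instance : Inv (Aff F) := ⟨fun x => ⟨x.a⁻¹, -((x.a⁻¹ : Fˣ) : F) * x.b⟩⟩

theorem mul_a (x y : Aff F) : (x * y).a = x.a * y.a := rfl
theorem mul_b (x y : Aff F) : (x * y).b = (x.a : F) * y.b + x.b := rfl
theorem one_a : (1 : Aff F).a = 1 := rfl
theorem one_b : (1 : Aff F).b = 0 := rfl
theorem inv_a (x : Aff F) : (x⁻¹).a = x.a⁻¹ := rfl
theorem inv_b (x : Aff F) : (x⁻¹).b = -((x.a⁻¹ : Fˣ) : F) * x.b := rfl

instance : Group (Aff F) :=
  Group.ofLeftAxioms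
    (by
      intro x y z
      apply Aff.ext
      · simp only [mul_a, mul_assoc]
      · simp only [mul_a, mul_b, Units.val_mul]; ring)
    (by
      intro x
      apply Aff.ext
      · simp only [mul_a, one_a, one_mul]
      · simp only [mul_b, one_a, one_b, Units.val_one]; ring)
    (by
      intro x
      apply Aff.ext
      · simp only [mul_a, inv_a, one_a, inv_mul_cancel]
      · simp only [mul_b, inv_a, inv_b, one_b]; ring)

/-- the underlying product type -/
def equivProd (F : Type) [Field F] : Aff F ≃ Fˣ × F where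
  toFun x := (x.a, x.b)
  invFun p := ⟨p.1, p.2⟩
  left_inv _ := rfl
  right_inv _ := rfl

instance [Finite F] : Finite (Aff F) := Finite.of_equiv _ (equivProd F).symm

/-- the homotheties `x ↦ a x` -/
def C0 (F : Type) [Field F] : Subgroup (Aff F) where
  carrier := {x | x.b = 0}
  one_mem' := rfl
  mul_mem' := by
    intro x y hx hy
    show (x.a : F) * y.b + x.b = 0
    rw [show y.b = 0 from hy, show x.b = 0 from hx]; ring
  inv_mem' := by
    intro x hx
    show -((x.a⁻¹ : Fˣ) : F) * x.b = 0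
    rw [show x.b = 0 from hx]; ring

end Aff

/-- AFA: the chains of `ℓ`-subgroups of `AGL_1(F)`, `ℓ ∣ |F| - 1`. -/
def AfaStmt : Prop :=
  ∀ (ℓ : ℕ) [Fact ℓ.Prime] (F : Type) [Field F] [Finite F], ℓ ∣ Nat.card F - 1 →
    opCore ℓ (Aff F) = ⊥ ∧
    ∀ w : Subgroup (Aff F) → ℤ, (∀ g H, w (conjS g H) = w H) →
      ∑ d ∈ chainsOn (psub ℓ (Aff F)) ⊥, (-1) ^ (d.card + 1) * w (stab d) =
        w ⊤ - (Nat.card F : ℤ) * w (Aff.C0 F)

open Classical in
/-- AFB: the irreducible characters of `AGL_1(F)`. -/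
def AfbStmt : Prop :=
  ∀ (F : Type) [Field F] [Finite F], ∀ χ : Aff F → ℂ,
    (χ ∈ Irr (Aff F) ↔ (∃ ψ : Fˣ →* ℂˣ, χ = fun x => (ψ x.a : ℂ)) ∨
      χ = fun x => if x.a = 1 then (if x.b = 0 then (Nat.card F : ℂ) - 1 else -1) else 0)

/-- AFC: the blocks of `AGL_1(F)`. -/
def AfcStmt : Prop :=
  ∀ (ℓ : ℕ) [Fact ℓ.Prime] (M : Ideal (integralClosure ℤ ℂ)) [M.IsMaximal],
    (ℓ : integralClosure ℤ ℂ) ∈ M → ∀ (F : Type) [Field F] [Finite F], ℓ ∣ Nat.card F - 1 →
    opCore ℓ (Aff F) = ⊥ → ∀ χ ∈ Irr (Aff F), LargeDefect ℓ M χ →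
    (IrrBlock M (⊤ : Subgroup (Aff F)).subtype χ).ncard =
      (IrrBlock M (Aff.C0 F).subtype χ).ncard

/-- the affine groups satisfy the conjecture -/
def AffStmt : Prop :=
  ∀ (ℓ : ℕ) [Fact ℓ.Prime] (M : Ideal (integralClosure ℤ ℂ)) [M.IsMaximal],
    (ℓ : integralClosure ℤ ℂ) ∈ M → ∀ (F : Type) [Field F] [Finite F], ℓ ∣ Nat.card F - 1 →
    opCore ℓ (Aff F) = ⊥ ∧ Q1For ℓ M (Aff F)

theorem aff_of (ha : AfaStmt) (hc : AfcStmt) : AffStmt := by
  intro ℓ _ M _ hℓ F _ _ hdvd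
  obtain ⟨h1, h2⟩ := ha ℓ F hdvd
  refine ⟨h1, ?_⟩
  intro χ hχ hLD
  have hcard : ((Nat.card (Aff F) : ℤ)) ≠ 0 := by exact_mod_cast Nat.card_pos.ne'
  apply mul_left_cancel₀ hcard
  rw [mul_zero, card_mul_altSum, h1]
  have hw : ∀ d : Finset (Subgroup (Aff F)), (weight M χ d : ℤ) =
      (fun H : Subgroup (Aff F) => (Nat.card H : ℤ) *
        ((IrrBlock M H.subtype χ).ncard : ℤ)) (stab d) := by
    intro d
    simp only [weight]
    push_cast
    rfl
  simp_rw [hw]
  have h3 := h2 (fun H : Subgroup (Aff F) => (Nat.card H : ℤ) *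
        ((IrrBlock M H.subtype χ).ncard : ℤ)) (by
    intro g H
    rw [(weight_conjS M χ g H).1, (weight_conjS M χ g H).2])
  rw [h3, hc ℓ M hℓ F hdvd h1 χ hχ hLD]
  have e1 : Nat.card (⊤ : Subgroup (Aff F)) = Nat.card F * Nat.card (Aff.C0 F) := by
    rw [Subgroup.card_top, Nat.card_congr (Aff.equivProd F), Nat.card_prod, mul_comm]
    congr 1
    apply Nat.card_congr
    exact
      { toFun := fun a => ⟨⟨a, 0⟩, rfl⟩
        invFun := fun x => x.1.a
        left_inv := fun _ => rfl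
        right_inv := fun x => by
          apply Subtype.ext
          apply Aff.ext
          · rfl
          · exact x.2.symm }
  rw [e1]
  push_cast
  ring

end Pool.Agent.Helper79_WRA
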